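import Mathlib

/-!
# Commutative differential graded algebras over `ℚ` and their cohomology

All structure maps carry the relation between the degrees as an argument (`i + 1 = j`,
`i + j = l`), so that no casts between graded pieces are needed.  The grading is by `ℤ`;
`NonNeg` says that the grading is non-negative.
-/

set_option autoImplicit false

namespace Pool.Agent.Q171.CE

/-- the sign `(-1)^i` -/
def sgn (i : ℤ) : ℚ := if Even i then 1 else -1

/-- A commutative differential graded algebra over `ℚ`, graded by `ℤ`, with differential `δ` of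
degree `1` and product `μ`. -/
structure CDGA where
  V : ℤ → Type
  [acg : ∀ i, AddCommGroup (V i)]
  [mod : ∀ i, Module ℚ (V i)]
  δ : ∀ {i j : ℤ}, i + 1 = j → V i → V j
  μ : ∀ {i j l : ℤ}, i + j = l → V i → V j → V l
  one : V 0
  δ_add : ∀ {i j : ℤ} (h : i + 1 = j) (a b : V i), δ h (a + b) = δ h a + δ h b
  δ_smul : ∀ {i j : ℤ} (h : i + 1 = j) (c : ℚ) (a : V i), δ h (c • a) = c • δ h a
  add_μ : ∀ {i j l : ℤ} (h : i + j = l) (a a' : V i) (b : V j),
    μ h (a + a') b = μ h a b + μ h a' b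
  smul_μ : ∀ {i j l : ℤ} (h : i + j = l) (c : ℚ) (a : V i) (b : V j), μ h (c • a) b = c • μ h a b
  μ_add : ∀ {i j l : ℤ} (h : i + j = l) (a : V i) (b b' : V j),
    μ h a (b + b') = μ h a b + μ h a b'
  μ_smul : ∀ {i j l : ℤ} (h : i + j = l) (c : ℚ) (a : V i) (b : V j), μ h a (c • b) = c • μ h a b
  δδ : ∀ {i j l : ℤ} (h : i + 1 = j) (h' : j + 1 = l) (a : V i), δ h' (δ h a) = 0
  one_μ : ∀ {i : ℤ} (h : 0 + i = i) (a : V i), μ h one a = a
  μ_one : ∀ {i : ℤ} (h : i + 0 = i) (a : V i), μ h a one = a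
  μ_assoc : ∀ {i j k ij jk l : ℤ} (h1 : i + j = ij) (h2 : j + k = jk) (h3 : ij + k = l)
    (h4 : i + jk = l) (a : V i) (b : V j) (c : V k), μ h3 (μ h1 a b) c = μ h4 a (μ h2 b c)
  μ_comm : ∀ {i j l : ℤ} (h : i + j = l) (h' : j + i = l) (a : V i) (b : V j),
    μ h a b = sgn (i * j) • μ h' b a
  δ_μ : ∀ {i j l i' j' l' : ℤ} (h : i + j = l) (hi : i + 1 = i') (hj : j + 1 = j')
    (hl : l + 1 = l') (h1 : i' + j = l') (h2 : i + j' = l') (a : V i) (b : V j),
    δ hl (μ h a b) = μ h1 (δ hi a) b + sgn i • μ h2 a (δ hj b)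

attribute [instance] CDGA.acg CDGA.mod

/-- morphisms of CDGAs -/
structure Hom (A B : CDGA) where
  f : ∀ {i : ℤ}, A.V i → B.V i
  f_add : ∀ {i : ℤ} (a a' : A.V i), f (a + a') = f a + f a'
  f_smul : ∀ {i : ℤ} (c : ℚ) (a : A.V i), f (c • a) = c • f a
  f_δ : ∀ {i j : ℤ} (h : i + 1 = j) (a : A.V i), f (A.δ h a) = B.δ h (f a)
  f_μ : ∀ {i j l : ℤ} (h : i + j = l) (a : A.V i) (b : A.V j),
    f (A.μ h a b) = B.μ h (f a) (f b)
  f_one : f A.one = B.one

/-- `f` is injective and surjective on cohomology in every degree `i` -/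
def Hom.IsQuasiIso {A B : CDGA} (f : Hom A B) : Prop :=
  (∀ {i' i j : ℤ} (h' : i' + 1 = i) (h : i + 1 = j) (a : A.V i), A.δ h a = 0 →
    (∃ b, B.δ h' b = f.f a) → ∃ a', A.δ h' a' = a) ∧
  (∀ {i' i j : ℤ} (h' : i' + 1 = i) (h : i + 1 = j) (b : B.V i), B.δ h b = 0 →
    ∃ a : A.V i, A.δ h a = 0 ∧ ∃ b', B.δ h' b' = f.f a - b)

/-- quasi-isomorphic CDGAs: joined by a zigzag of quasi-isomorphisms -/
def QuasiIsomorphic (A B : CDGA) : Prop :=
  Relation.EqvGen (fun A B : CDGA => ∃ f : Hom A B, f.IsQuasiIso) A B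

namespace CDGA

/-- non-negatively graded -/
def NonNeg (A : CDGA) : Prop := ∀ i : ℤ, i < 0 → Subsingleton (A.V i)

theorem δ_zero (A : CDGA) {i j : ℤ} (h : i + 1 = j) : A.δ h 0 = 0 := by
  have := A.δ_smul h 0 0
  rwa [zero_smul, zero_smul] at this

/-- cocycles of degree `i` -/
def Z (A : CDGA) (i : ℤ) : Submodule ℚ (A.V i) where
  carrier := {a | A.δ rfl a = 0}
  zero_mem' := A.δ_zero rfl
  add_mem' := fun {a b} ha hb => ((A.δ_add rfl a b).trans (congrArg₂ (· + ·) ha hb)).trans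
    (add_zero 0)
  smul_mem' := fun c a ha => ((A.δ_smul rfl c a).trans (congrArg (c • ·) ha)).trans (smul_zero c)

/-- coboundaries of degree `i`, among the cocycles -/
def B (A : CDGA) (i : ℤ) : Submodule ℚ (A.Z i) where
  carrier := {a | ∃ b, A.δ (sub_add_cancel i 1) b = a}
  zero_mem' := ⟨0, A.δ_zero _⟩
  add_mem' := fun {_ _} ⟨b, hb⟩ ⟨b', hb'⟩ => ⟨b + b', (A.δ_add _ b b').trans
    (congrArg₂ (· + ·) hb hb')⟩
  smul_mem' := fun c _ ⟨b, hb⟩ => ⟨c • b, (A.δ_smul _ c b).trans (congrArg (c • ·) hb)⟩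

/-- cohomology in degree `i` -/
def H (A : CDGA) (i : ℤ) : Type := A.Z i ⧸ A.B i

instance acgH (A : CDGA) (i : ℤ) : AddCommGroup (A.H i) :=
  Submodule.Quotient.addCommGroup (A.B i)

instance modH (A : CDGA) (i : ℤ) : Module ℚ (A.H i) :=
  Submodule.Quotient.module (A.B i)

theorem sgn_sq (i : ℤ) : sgn i * sgn i = 1 := by unfold sgn; split_ifs <;> norm_num

theorem zero_μ (A : CDGA) {i j l : ℤ} (h : i + j = l) (b : A.V j) : A.μ h 0 b = 0 := by
  have := A.smul_μ h 0 0 b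
  rwa [zero_smul, zero_smul] at this

theorem μ_zero (A : CDGA) {i j l : ℤ} (h : i + j = l) (a : A.V i) : A.μ h a 0 = 0 := by
  have := A.μ_smul h 0 a 0
  rwa [zero_smul, zero_smul] at this

theorem μ_mem_Z (A : CDGA) {i j l : ℤ} (h : i + j = l) (a : A.Z i) (b : A.Z j) :
    A.μ h a b ∈ A.Z l := by
  have ha : A.δ rfl (a : A.V i) = 0 := a.2
  have hb : A.δ rfl (b : A.V j) = 0 := b.2
  have := A.δ_μ h rfl rfl rfl (show i + 1 + j = l + 1 by omega) (by omega) (a : A.V i)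
    (b : A.V j)
  change A.δ rfl _ = 0
  rw [this, ha, hb, zero_μ, μ_zero, smul_zero, add_zero]

/-- the product of cocycles -/
def mulZ (A : CDGA) {i j l : ℤ} (h : i + j = l) (a : A.Z i) (b : A.Z j) : A.Z l :=
  ⟨A.μ h a b, A.μ_mem_Z h a b⟩

theorem mulZ_mem_B_right (A : CDGA) {i j l : ℤ} (h : i + j = l) (a : A.Z i) (b : A.Z j)
    (hb : b ∈ A.B j) : A.mulZ h a b ∈ A.B l := by
  have ha' : A.δ rfl (a : A.V i) = 0 := a.2
  obtain ⟨c, hc⟩ := hb
  have := A.δ_μ (show i + (j - 1) = l - 1 by omega) rfl (sub_add_cancel j 1)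
    (sub_add_cancel l 1) (show i + 1 + (j - 1) = l by omega) h (a : A.V i) c
  rw [ha', hc, zero_μ, zero_add] at this
  refine ⟨sgn i • A.μ (show i + (j - 1) = l - 1 by omega) (a : A.V i) c, ?_⟩
  rw [A.δ_smul, this, smul_smul, sgn_sq, one_smul]
  rfl

theorem mulZ_comm (A : CDGA) {i j l : ℤ} (h : i + j = l) (h' : j + i = l) (a : A.Z i)
    (b : A.Z j) : A.mulZ h a b = sgn (i * j) • A.mulZ h' b a :=
  Subtype.ext (A.μ_comm h h' (a : A.V i) (b : A.V j))

theorem mulZ_mem_B_left (A : CDGA) {i j l : ℤ} (h : i + j = l) (a : A.Z i) (b : A.Z j)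
    (ha : a ∈ A.B i) : A.mulZ h a b ∈ A.B l := by
  rw [A.mulZ_comm h (by omega)]
  exact (A.B l).smul_mem _ (A.mulZ_mem_B_right _ b a ha)

theorem mulZ_rel (A : CDGA) {i j l : ℤ} (h : i + j = l) (a a' : A.Z i) (ha : a - a' ∈ A.B i)
    (b b' : A.Z j) (hb : b - b' ∈ A.B j) : A.mulZ h a b - A.mulZ h a' b' ∈ A.B l := by
  have e : A.mulZ h a b - A.mulZ h a' b' = A.mulZ h (a - a') b + A.mulZ h a' (b - b') := by
    apply Subtype.ext
    change A.μ h (a : A.V i) b - A.μ h (a' : A.V i) b' =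
      A.μ h ((a : A.V i) - a') b + A.μ h (a' : A.V i) ((b : A.V j) - b')
    have e1 : A.μ h ((a : A.V i) - a') b = A.μ h (a : A.V i) b - A.μ h (a' : A.V i) b := by
      rw [eq_sub_iff_add_eq, ← A.add_μ, sub_add_cancel]
    have e2 : A.μ h (a' : A.V i) ((b : A.V j) - b') =
        A.μ h (a' : A.V i) b - A.μ h (a' : A.V i) b' := by
      rw [eq_sub_iff_add_eq, ← A.μ_add, sub_add_cancel]
    rw [e1, e2]
    abel
  rw [e]
  exact (A.B l).add_mem (A.mulZ_mem_B_left h _ _ ha) (A.mulZ_mem_B_right h _ _ hb)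

/-- the class of a cocycle -/
def cls (A : CDGA) {i : ℤ} (a : A.Z i) : A.H i := (Submodule.Quotient.mk a : A.Z i ⧸ A.B i)

theorem mulH_wd (A : CDGA) {i j l : ℤ} (h : i + j = l) (a : A.Z i) (b : A.Z j) (a' : A.Z i)
    (b' : A.Z j) (ha : (A.B i).quotientRel a a') (hb : (A.B j).quotientRel b b') :
    A.cls (A.mulZ h a b) = A.cls (A.mulZ h a' b') := by
  rw [Submodule.quotientRel_def] at ha hb
  exact (Submodule.Quotient.eq _).mpr (A.mulZ_rel h a a' ha b b' hb)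

/-- the product on cohomology -/
def mulH (A : CDGA) {i j l : ℤ} (h : i + j = l) (a : A.H i) (b : A.H j) : A.H l :=
  Quotient.liftOn₂' a b (fun a b => A.cls (A.mulZ h a b)) (A.mulH_wd h)

theorem mulH_cls (A : CDGA) {i j l : ℤ} (h : i + j = l) (a : A.Z i) (b : A.Z j) :
    A.mulH h (A.cls a) (A.cls b) = A.cls (A.mulZ h a b) := rfl

theorem deg_act {n i p l : ℤ} (h : i + p = l) : i + (n - l) = n - p := by omega

/-- The cohomology `H` satisfies Poincaré duality in dimension `m`: it is connected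
(`H^0 = ℚ`), finite-dimensional, and there is an isomorphism `θ` of `H`-modules from `H` to
`s^{-m} # H`.  An element of degree `p` of `s^{-m} # H` is a linear functional `φ` on
`H^{m-p}`, and `(a φ)(x) = (-1)^{ip} φ(a x)` for `a` of degree `i`. -/
def PoincareDuality (A : CDGA) (m : ℤ) : Prop :=
  Module.finrank ℚ (A.H 0) = 1 ∧
  (∀ i, FiniteDimensional ℚ (A.H i)) ∧ {i : ℤ | Nontrivial (A.H i)}.Finite ∧
  ∃ θ : ∀ p, A.H p ≃ₗ[ℚ] (A.H (m - p) →ₗ[ℚ] ℚ),
    ∀ {i p l : ℤ} (h : i + p = l) (a : A.H i) (b : A.H p) (x : A.H (m - l)),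
      θ l (A.mulH h a b) x = sgn (i * p) * θ p b (A.mulH (deg_act h) a x)

theorem two_add_two (k : ℤ) : 2 * k + 2 * k = 4 * k := by ring

/-- The signature of the form `H^{2k} × H^{2k} → H^{4k} = ℚ` is zero: for every identification
`ω : H^{4k} = ℚ`, `H^{2k}` is the direct sum of a positive definite and a negative definite
subspace of the same dimension. -/
def SignatureZero (A : CDGA) (k : ℤ) : Prop :=
  ∀ ω : A.H (4 * k) ≃ₗ[ℚ] ℚ, ∃ P N : Submodule ℚ (A.H (2 * k)), IsCompl P N ∧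
    Module.finrank ℚ P = Module.finrank ℚ N ∧
    (∀ x ∈ P, x ≠ 0 → 0 < ω (A.mulH (two_add_two k) x x)) ∧
    (∀ x ∈ N, x ≠ 0 → ω (A.mulH (two_add_two k) x x) < 0)

/-- The form `H^{2k} × H^{2k} → H^{4k}` is metabolic: some subspace is its own orthogonal
complement. -/
def Metabolic (A : CDGA) (k : ℤ) : Prop :=
  ∃ L : Submodule ℚ (A.H (2 * k)), ∀ x, x ∈ L ↔ ∀ y ∈ L, A.mulH (two_add_two k) x y = 0

/-! ### The suspended dual and balanced morphisms -/

/-- `(s^{-n} # Q)^p = hom(Q^{n-p}, ℚ)` -/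
abbrev Sh (Q : CDGA) (n p : ℤ) : Type := Q.V (n - p) →ₗ[ℚ] ℚ

theorem deg_d {n p p' : ℤ} (h : p + 1 = p') : n - p' + 1 = n - p := by omega

theorem dualD_add (Q : CDGA) {n p p' : ℤ} (h : p + 1 = p') (φ : Q.Sh n p)
    (x y : Q.V (n - p')) : -(sgn p * φ (Q.δ (deg_d h) (x + y))) =
      -(sgn p * φ (Q.δ (deg_d h) x)) + -(sgn p * φ (Q.δ (deg_d h) y)) := by
  rw [Q.δ_add, map_add]; ring

theorem dualD_smul (Q : CDGA) {n p p' : ℤ} (h : p + 1 = p') (φ : Q.Sh n p) (c : ℚ)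
    (x : Q.V (n - p')) : -(sgn p * φ (Q.δ (deg_d h) (c • x))) =
      (RingHom.id ℚ) c • -(sgn p * φ (Q.δ (deg_d h) x)) := by
  rw [Q.δ_smul, map_smul, RingHom.id_apply, smul_eq_mul, smul_eq_mul]; ring

/-- the differential of `s^{-n} # Q`: `(d φ)(x) = -(-1)^p φ(d x)` for `φ` of degree `p` -/
def dualD (Q : CDGA) {n p p' : ℤ} (h : p + 1 = p') (φ : Q.Sh n p) : Q.Sh n p' where
  toFun x := -(sgn p * φ (Q.δ (deg_d h) x))
  map_add' := Q.dualD_add h φ
  map_smul' := Q.dualD_smul h φ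

theorem dualAct_add (Q : CDGA) {n i p l : ℤ} (h : i + p = l) (q : Q.V i) (φ : Q.Sh n p)
    (x y : Q.V (n - l)) : sgn (i * p) * φ (Q.μ (deg_act h) q (x + y)) =
      sgn (i * p) * φ (Q.μ (deg_act h) q x) + sgn (i * p) * φ (Q.μ (deg_act h) q y) := by
  rw [Q.μ_add, map_add]; ring

theorem dualAct_smul (Q : CDGA) {n i p l : ℤ} (h : i + p = l) (q : Q.V i) (φ : Q.Sh n p)
    (c : ℚ) (x : Q.V (n - l)) : sgn (i * p) * φ (Q.μ (deg_act h) q (c • x)) =
      (RingHom.id ℚ) c • (sgn (i * p) * φ (Q.μ (deg_act h) q x)) := by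
  rw [Q.μ_smul, map_smul, RingHom.id_apply, smul_eq_mul, smul_eq_mul]; ring

/-- the action of `Q` on `s^{-n} # Q`: `(q φ)(x) = (-1)^{ip} φ(q x)` for `q` of degree `i` and
`φ` of degree `p` -/
def dualAct (Q : CDGA) {n i p l : ℤ} (h : i + p = l) (q : Q.V i) (φ : Q.Sh n p) :
    Q.Sh n l where
  toFun x := sgn (i * p) * φ (Q.μ (deg_act h) q x)
  map_add' := Q.dualAct_add h q φ
  map_smul' := Q.dualAct_smul h q φ

end CDGA

/-- A balanced morphism `Ψ : s^{-n} # Q → Q` of `Q`-dg-modules: it is linear, commutes with the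
differentials and the actions, and `Ψ(x) · y = x · Ψ(y)`, where the right action is
`x · q = (-1)^{|x||q|} q · x`. -/
structure Balanced (Q : CDGA) (n : ℤ) where
  f : ∀ p, Q.Sh n p → Q.V p
  f_add : ∀ p (φ φ' : Q.Sh n p), f p (φ + φ') = f p φ + f p φ'
  f_smul : ∀ p (c : ℚ) (φ : Q.Sh n p), f p (c • φ) = c • f p φ
  f_d : ∀ {p p' : ℤ} (h : p + 1 = p') (φ : Q.Sh n p), f p' (Q.dualD h φ) = Q.δ h (f p φ)
  f_act : ∀ {i p l : ℤ} (h : i + p = l) (q : Q.V i) (φ : Q.Sh n p),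
    f l (Q.dualAct h q φ) = Q.μ h q (f p φ)
  balanced : ∀ {p q l : ℤ} (h : p + q = l) (h' : q + p = l) (x : Q.Sh n p) (y : Q.Sh n q),
    Q.dualAct h (f p x) y = sgn (p * q) • Q.dualAct h' (f q y) x

namespace CDGA

/-- `V i = V j` for `i = j` -/
def move (Q : CDGA) {i j : ℤ} (h : i = j) (x : Q.V i) : Q.V j := h ▸ x

/-- the graded vector space `Q ⊕ s s^{-n} # Q` -/
def ConeV (Q : CDGA) (n p : ℤ) : Type := Q.V p × Q.Sh n (p + 1)

instance coneAcg (Q : CDGA) (n p : ℤ) : AddCommGroup (Q.ConeV n p) :=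
  Prod.instAddCommGroup

instance coneMod (Q : CDGA) (n p : ℤ) : Module ℚ (Q.ConeV n p) :=
  Prod.instModule

theorem succ_eq {i j : ℤ} (h : i + 1 = j) : i + 1 + 1 = j + 1 := by omega

theorem deg_right {i j l : ℤ} (h : i + j = l) : i + (j + 1) = l + 1 := by omega

theorem deg_left {i j l : ℤ} (h : i + j = l) : j + (i + 1) = l + 1 := by omega

/-- `δ(q, s m) = (d q + Ψ(m), - s d m)` -/
def coneδ {Q : CDGA} {n : ℤ} (Ψ : Balanced Q n) {i j : ℤ} (h : i + 1 = j) (z : Q.ConeV n i) :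
    Q.ConeV n j :=
  (Q.δ h z.1 + Q.move h (Ψ.f (i + 1) z.2), -Q.dualD (succ_eq h) z.2)

/-- The product of `Q ⊕ s s^{-n} # Q`: it extends the product of `Q` and the action
`q (s m) = (-1)^{|q|} s (q m)`, `(s m) q = (-1)^{|sm||q|} q (s m)`, and `(s m)(s m') = 0`. -/
def coneμ (Q : CDGA) (n : ℤ) {i j l : ℤ} (h : i + j = l) (z : Q.ConeV n i)
    (w : Q.ConeV n j) : Q.ConeV n l :=
  (Q.μ h z.1 w.1,
    sgn i • Q.dualAct (deg_right h) z.1 w.2 +
      (sgn (i * j) * sgn j) • Q.dualAct (deg_left h) w.1 z.2)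

end CDGA

end Pool.Agent.Q171.CE
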