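import Mathlib
import Pool.Agent.Q171.CE.Defs

/-!
# Linear versions of the structure maps; the axioms of the cone
-/

set_option autoImplicit false

namespace Pool.Agent.Q171.CE

theorem sgn_add (i j : ℤ) : sgn (i + j) = sgn i * sgn j := by
  unfold sgn
  by_cases hi : Even i <;> by_cases hj : Even j <;> simp [Int.even_add, hi, hj]

theorem sgn_cases (i : ℤ) : sgn i = 1 ∨ sgn i = -1 := by unfold sgn; split_ifs <;> simp

theorem sgn_zero : sgn 0 = 1 := by simp [sgn]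

theorem sgn_one : sgn 1 = -1 := by simp [sgn]

theorem sgn_self_mul (i : ℤ) : sgn (i * i) = sgn i := by
  unfold sgn
  simp [Int.even_mul]

namespace CDGA

/-- the differential, as a linear map -/
def d (A : CDGA) (i j : ℤ) (h : i + 1 = j) : A.V i →ₗ[ℚ] A.V j where
  toFun := A.δ h
  map_add' := A.δ_add h
  map_smul' := A.δ_smul h

/-- the product, as a bilinear map -/
def mul (A : CDGA) (i j l : ℤ) (h : i + j = l) : A.V i →ₗ[ℚ] A.V j →ₗ[ℚ] A.V l :=
  LinearMap.mk₂ ℚ (A.μ h) (A.add_μ h) (A.smul_μ h) (A.μ_add h) (A.μ_smul h)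

theorem dd (A : CDGA) (i j l : ℤ) (h : i + 1 = j) (h' : j + 1 = l) (a : A.V i) :
    A.d j l h' (A.d i j h a) = 0 := A.δδ h h' a

theorem one_mul (A : CDGA) (i : ℤ) (h : 0 + i = i) (a : A.V i) : A.mul 0 i i h A.one a = a :=
  A.one_μ h a

theorem mul_one (A : CDGA) (i : ℤ) (h : i + 0 = i) (a : A.V i) : A.mul i 0 i h a A.one = a :=
  A.μ_one h a

theorem assoc (A : CDGA) (i j k ij jk l : ℤ) (h1 : i + j = ij) (h2 : j + k = jk)
    (h3 : ij + k = l) (h4 : i + jk = l) (a : A.V i) (b : A.V j) (c : A.V k) :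
    A.mul ij k l h3 (A.mul i j ij h1 a b) c = A.mul i jk l h4 a (A.mul j k jk h2 b c) :=
  A.μ_assoc h1 h2 h3 h4 a b c

theorem comm (A : CDGA) (i j l : ℤ) (h : i + j = l) (h' : j + i = l) (a : A.V i) (b : A.V j) :
    A.mul i j l h a b = sgn (i * j) • A.mul j i l h' b a := A.μ_comm h h' a b

theorem leib (A : CDGA) (i j l i' j' l' : ℤ) (h : i + j = l) (hi : i + 1 = i')
    (hj : j + 1 = j') (hl : l + 1 = l') (h1 : i' + j = l') (h2 : i + j' = l') (a : A.V i)
    (b : A.V j) : A.d l l' hl (A.mul i j l h a b) =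
      A.mul i' j l' h1 (A.d i i' hi a) b + sgn i • A.mul i j' l' h2 a (A.d j j' hj b) :=
  A.δ_μ h hi hj hl h1 h2 a b

/-- the identification `V i = V j` for `i = j` -/
def cast (A : CDGA) {i j : ℤ} (h : i = j) : A.V i ≃ₗ[ℚ] A.V j := h ▸ LinearEquiv.refl ℚ (A.V i)

theorem cast_eq_move (A : CDGA) {i j : ℤ} (h : i = j) (x : A.V i) : A.cast h x = A.move h x := by
  subst h
  rfl

/-- the differential of the dual, as a linear map -/
def shD (Q : CDGA) (n p p' : ℤ) (h : p + 1 = p') : Q.Sh n p →ₗ[ℚ] Q.Sh n p' where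
  toFun φ := Q.dualD h φ
  map_add' φ φ' := by
    ext x
    change -(sgn p * (φ (Q.δ (deg_d h) x) + φ' (Q.δ (deg_d h) x))) =
      -(sgn p * φ (Q.δ (deg_d h) x)) + -(sgn p * φ' (Q.δ (deg_d h) x))
    ring
  map_smul' c φ := by
    ext x
    change -(sgn p * (c * φ (Q.δ (deg_d h) x))) = c * -(sgn p * φ (Q.δ (deg_d h) x))
    ring

theorem shD_apply (Q : CDGA) (n p p' : ℤ) (h : p + 1 = p') (φ : Q.Sh n p) (x : Q.V (n - p')) :
    Q.shD n p p' h φ x = - (sgn p * φ (Q.d (n - p') (n - p) (deg_d h) x)) := rfl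

/-- the action on the dual, as a bilinear map -/
def shAct (Q : CDGA) (n i p l : ℤ) (h : i + p = l) : Q.V i →ₗ[ℚ] Q.Sh n p →ₗ[ℚ] Q.Sh n l :=
  LinearMap.mk₂ ℚ (fun q φ => Q.dualAct h q φ)
    (by
      intro q q' φ
      ext x
      change sgn (i * p) * φ (Q.μ (deg_act h) (q + q') x) =
        sgn (i * p) * φ (Q.μ (deg_act h) q x) + sgn (i * p) * φ (Q.μ (deg_act h) q' x)
      rw [Q.add_μ, map_add]; ring)
    (by
      intro c q φ
      ext x
      change sgn (i * p) * φ (Q.μ (deg_act h) (c • q) x) =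
        c * (sgn (i * p) * φ (Q.μ (deg_act h) q x))
      rw [Q.smul_μ, map_smul, smul_eq_mul]; ring)
    (by
      intro q φ φ'
      ext x
      change sgn (i * p) * (φ (Q.μ (deg_act h) q x) + φ' (Q.μ (deg_act h) q x)) =
        sgn (i * p) * φ (Q.μ (deg_act h) q x) + sgn (i * p) * φ' (Q.μ (deg_act h) q x)
      ring)
    (by
      intro c q φ
      ext x
      change sgn (i * p) * (c * φ (Q.μ (deg_act h) q x)) =
        c * (sgn (i * p) * φ (Q.μ (deg_act h) q x))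
      ring)

theorem shAct_apply (Q : CDGA) (n i p l : ℤ) (h : i + p = l) (q : Q.V i) (φ : Q.Sh n p)
    (x : Q.V (n - l)) :
    Q.shAct n i p l h q φ x = sgn (i * p) * φ (Q.mul i (n - l) (n - p) (deg_act h) q x) := rfl

end CDGA

namespace Balanced

variable {Q : CDGA} {n : ℤ} (Ψ : Balanced Q n)

/-- `Ψ` as a linear map -/
def ψ (p : ℤ) : Q.Sh n p →ₗ[ℚ] Q.V p where
  toFun := Ψ.f p
  map_add' := Ψ.f_add p
  map_smul' := Ψ.f_smul p

theorem comm_d (p p' : ℤ) (h : p + 1 = p') (φ : Q.Sh n p) :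
    Ψ.ψ p' (Q.shD n p p' h φ) = Q.d p p' h (Ψ.ψ p φ) := Ψ.f_d h φ

theorem lin (i p l : ℤ) (h : i + p = l) (q : Q.V i) (φ : Q.Sh n p) :
    Ψ.ψ l (Q.shAct n i p l h q φ) = Q.mul i p l h q (Ψ.ψ p φ) := Ψ.f_act h q φ

theorem bal (p q l : ℤ) (h : p + q = l) (h' : q + p = l) (x : Q.Sh n p) (y : Q.Sh n q) :
    Q.shAct n p q l h (Ψ.ψ p x) y = sgn (p * q) • Q.shAct n q p l h' (Ψ.ψ q y) x :=
  Ψ.balanced h h' x y

end Balanced

namespace CDGA

/-- the graded vector space `Q ⊕ s s^{-n} # Q` -/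
abbrev ConeW (Q : CDGA) (n p : ℤ) : Type := Q.V p × Q.Sh n (p + 1)

/-- `δ(q, s m) = (d q + Ψ(m), - s d m)` -/
def coneD {Q : CDGA} {n : ℤ} (Ψ : Balanced Q n) (i j : ℤ) (h : i + 1 = j) :
    Q.ConeW n i →ₗ[ℚ] Q.ConeW n j :=
  LinearMap.prod
    (Q.d i j h ∘ₗ LinearMap.fst ℚ _ _ +
      (Q.cast h).toLinearMap ∘ₗ Ψ.ψ (i + 1) ∘ₗ LinearMap.snd ℚ _ _)
    (-(Q.shD n (i + 1) (j + 1) (succ_eq h) ∘ₗ LinearMap.snd ℚ _ _))

theorem coneD_apply {Q : CDGA} {n : ℤ} (Ψ : Balanced Q n) (i : ℤ) (q : Q.V i)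
    (φ : Q.Sh n (i + 1)) :
    coneD Ψ i (i + 1) rfl (q, φ) =
      (Q.d i (i + 1) rfl q + Ψ.ψ (i + 1) φ, - Q.shD n (i + 1) (i + 1 + 1) (by omega) φ) := rfl

/-- The product of `Q ⊕ s s^{-n} # Q`: it extends the product of `Q` and the action
`q (s m) = (-1)^{|q|} s (q m)`, `(s m) q = (-1)^{|sm||q|} q (s m)`, and `(s m)(s m') = 0`. -/
def coneMulF (Q : CDGA) (n : ℤ) (i j l : ℤ) (h : i + j = l) (z : Q.ConeW n i)
    (w : Q.ConeW n j) : Q.ConeW n l :=
  (Q.mul i j l h z.1 w.1,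
    sgn i • Q.shAct n i (j + 1) (l + 1) (deg_right h) z.1 w.2 +
      (sgn (i * j) * sgn j) • Q.shAct n j (i + 1) (l + 1) (deg_left h) w.1 z.2)

theorem coneMulF_add_left (Q : CDGA) (n : ℤ) (i j l : ℤ) (h : i + j = l) (z z' : Q.ConeW n i)
    (w : Q.ConeW n j) : coneMulF Q n i j l h (z + z') w =
      coneMulF Q n i j l h z w + coneMulF Q n i j l h z' w := by
  refine Prod.ext (by simp [coneMulF]) ?_
  simp only [coneMulF, Prod.fst_add, Prod.snd_add, map_add, LinearMap.add_apply, smul_add]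
  abel

theorem coneMulF_smul_left (Q : CDGA) (n : ℤ) (i j l : ℤ) (h : i + j = l) (c : ℚ)
    (z : Q.ConeW n i) (w : Q.ConeW n j) : coneMulF Q n i j l h (c • z) w =
      c • coneMulF Q n i j l h z w := by
  refine Prod.ext (by simp [coneMulF]) ?_
  simp only [coneMulF, Prod.smul_fst, Prod.smul_snd, map_smul, LinearMap.smul_apply, smul_add]
  rw [smul_comm c (sgn i), smul_comm c (sgn (i * j) * sgn j)]

theorem coneMulF_add_right (Q : CDGA) (n : ℤ) (i j l : ℤ) (h : i + j = l) (z : Q.ConeW n i)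
    (w w' : Q.ConeW n j) : coneMulF Q n i j l h z (w + w') =
      coneMulF Q n i j l h z w + coneMulF Q n i j l h z w' := by
  refine Prod.ext (by simp [coneMulF]) ?_
  simp only [coneMulF, Prod.fst_add, Prod.snd_add, map_add, LinearMap.add_apply, smul_add]
  abel

theorem coneMulF_smul_right (Q : CDGA) (n : ℤ) (i j l : ℤ) (h : i + j = l) (c : ℚ)
    (z : Q.ConeW n i) (w : Q.ConeW n j) : coneMulF Q n i j l h z (c • w) =
      c • coneMulF Q n i j l h z w := by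
  refine Prod.ext (by simp [coneMulF]) ?_
  simp only [coneMulF, Prod.smul_fst, Prod.smul_snd, map_smul, LinearMap.smul_apply, smul_add]
  rw [smul_comm c (sgn i), smul_comm c (sgn (i * j) * sgn j)]

/-- the product of the cone as a bilinear map -/
def coneMul (Q : CDGA) (n : ℤ) (i j l : ℤ) (h : i + j = l) :
    Q.ConeW n i →ₗ[ℚ] Q.ConeW n j →ₗ[ℚ] Q.ConeW n l :=
  LinearMap.mk₂ ℚ (coneMulF Q n i j l h) (coneMulF_add_left Q n i j l h)
    (coneMulF_smul_left Q n i j l h) (coneMulF_add_right Q n i j l h)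
    (coneMulF_smul_right Q n i j l h)

theorem coneMul_fst (Q : CDGA) (n : ℤ) (i j l : ℤ) (h : i + j = l) (z : Q.ConeW n i)
    (w : Q.ConeW n j) : (coneMul Q n i j l h z w).1 = Q.mul i j l h z.1 w.1 := rfl

theorem coneMul_snd (Q : CDGA) (n : ℤ) (i j l : ℤ) (h : i + j = l) (z : Q.ConeW n i)
    (w : Q.ConeW n j) : (coneMul Q n i j l h z w).2 =
      sgn i • Q.shAct n i (j + 1) (l + 1) (by omega) z.1 w.2 +
          (sgn (i * j) * sgn j) • Q.shAct n j (i + 1) (l + 1) (by omega) w.1 z.2 := rfl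

theorem coneMul_snd_apply (Q : CDGA) (n : ℤ) (i j l : ℤ) (h : i + j = l) (z : Q.ConeW n i)
    (w : Q.ConeW n j) (x : Q.V (n - (l + 1))) : (coneMul Q n i j l h z w).2 x =
      z.2 (Q.mul j (n - (l + 1)) (n - (i + 1)) (by omega) w.1 x) +
        sgn (i * j) * w.2 (Q.mul i (n - (l + 1)) (n - (j + 1)) (by omega) z.1 x) := by
  rw [coneMul_snd, LinearMap.add_apply, LinearMap.smul_apply, LinearMap.smul_apply, shAct_apply,
    shAct_apply, mul_add, mul_add, _root_.mul_one, _root_.mul_one, sgn_add, sgn_add, mul_comm j i,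
    smul_eq_mul, smul_eq_mul]
  have h1 := sgn_sq i
  have h2 := sgn_sq j
  have h3 := sgn_sq (i * j)
  linear_combination (sgn (i * j) * w.2 (Q.mul i (n - (l + 1)) (n - (j + 1)) (by omega) z.1 x)) * h1 +
    (z.2 (Q.mul j (n - (l + 1)) (n - (i + 1)) (by omega) w.1 x)) * h3 +
    (sgn (i * j) * sgn (i * j) *
      z.2 (Q.mul j (n - (l + 1)) (n - (i + 1)) (by omega) w.1 x)) * h2

theorem bal_apply {Q : CDGA} {n : ℤ} (Ψ : Balanced Q n) (p q l : ℤ) (h : p + q = l)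
    (φ : Q.Sh n p) (φ' : Q.Sh n q) (x : Q.V (n - l)) :
    φ' (Q.mul p (n - l) (n - q) (by omega) (Ψ.ψ p φ) x) =
      sgn (p * q) * φ (Q.mul q (n - l) (n - p) (by omega) (Ψ.ψ q φ') x) := by
  have h1 := congrArg (fun F => F x) (Ψ.bal p q l h (by omega) φ φ')
  simp only [LinearMap.smul_apply, shAct_apply, smul_eq_mul] at h1
  rw [mul_comm q p] at h1
  have h3 := sgn_sq (p * q)
  linear_combination (sgn (p * q)) * h1 -
    (φ' (Q.mul p (n - l) (n - q) (by omega) (Ψ.ψ p φ) x)) * h3 + (sgn (p * q) *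
      φ (Q.mul q (n - l) (n - p) (by omega) (Ψ.ψ q φ') x)) * h3

theorem left_comm (Q : CDGA) (i k t kt it l : ℤ) (h1 : k + t = kt) (h2 : i + kt = l)
    (h3 : i + t = it) (h4 : k + it = l) (a : Q.V i) (c : Q.V k) (x : Q.V t) :
    Q.mul i kt l h2 a (Q.mul k t kt h1 c x) =
      sgn (i * k) • Q.mul k it l h4 c (Q.mul i t it h3 a x) := by
  rw [← Q.assoc i k t (i + k) kt l rfl h1 (by omega) h2 a c x,
    ← Q.assoc k i t (i + k) it l (by omega) h3 (by omega) h4 c a x,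
    Q.comm i k (i + k) rfl (by omega) a c]
  simp

theorem cone_dd {Q : CDGA} {n : ℤ} (Ψ : Balanced Q n) (i j l : ℤ) (h : i + 1 = j)
    (h' : j + 1 = l) (z : Q.ConeW n i) : coneD Ψ j l h' (coneD Ψ i j h z) = 0 := by
  subst h
  subst h'
  obtain ⟨q, φ⟩ := z
  rw [coneD_apply, coneD_apply]
  refine Prod.ext ?_ ?_
  · change Q.d _ _ _ (Q.d _ _ _ q + Ψ.ψ _ φ) + Ψ.ψ _ (- Q.shD _ _ _ _ φ) = 0
    rw [map_add, Q.dd, map_neg, Ψ.comm_d]
    simp
  · change - Q.shD _ _ _ _ (- Q.shD _ _ _ _ φ) = 0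
    rw [map_neg, neg_neg]
    ext x
    rw [shD_apply, shD_apply, Q.dd]
    simp

theorem cone_one_mul (Q : CDGA) (n : ℤ) (i : ℤ) (h : 0 + i = i) (z : Q.ConeW n i) :
    coneMul Q n 0 i i h (Q.one, 0) z = z := by
  obtain ⟨q, φ⟩ := z
  refine Prod.ext ?_ ?_
  · rw [coneMul_fst]
    exact Q.one_mul i h q
  · ext x
    rw [coneMul_snd_apply, Q.one_mul]
    simp [sgn_zero]

theorem cone_mul_one (Q : CDGA) (n : ℤ) (i : ℤ) (h : i + 0 = i) (z : Q.ConeW n i) :
    coneMul Q n i 0 i h z (Q.one, 0) = z := by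
  obtain ⟨q, φ⟩ := z
  refine Prod.ext ?_ ?_
  · rw [coneMul_fst]
    exact Q.mul_one i h q
  · ext x
    rw [coneMul_snd_apply]
    simp only [LinearMap.zero_apply, mul_zero, add_zero]
    rw [Q.one_mul]

theorem cone_assoc (Q : CDGA) (n : ℤ) (i j k ij jk l : ℤ) (h1 : i + j = ij) (h2 : j + k = jk)
    (h3 : ij + k = l) (h4 : i + jk = l) (a : Q.ConeW n i) (b : Q.ConeW n j) (c : Q.ConeW n k) :
    coneMul Q n ij k l h3 (coneMul Q n i j ij h1 a b) c =
      coneMul Q n i jk l h4 a (coneMul Q n j k jk h2 b c) := by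
  refine Prod.ext ?_ ?_
  · rw [coneMul_fst, coneMul_fst, coneMul_fst, coneMul_fst]
    exact Q.assoc i j k ij jk l h1 h2 h3 h4 a.1 b.1 c.1
  · ext x
    subst h1
    subst h2
    subst h3
    rw [coneMul_snd_apply, coneMul_snd_apply, coneMul_snd_apply, coneMul_snd_apply, coneMul_fst,
      coneMul_fst,
      Q.assoc j k (n - (i + j + k + 1)) (j + k) (n - (i + j + 1)) (n - (i + 1)) rfl (by omega)
        (by omega) (by omega) b.1 c.1 x,
      Q.left_comm i k (n - (i + j + k + 1)) (n - (i + j + 1)) (n - (j + k + 1)) (n - (j + 1))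
        (by omega) (by omega) (by omega) (by omega) a.1 c.1 x,
      Q.assoc i j (n - (i + j + k + 1)) (i + j) (n - (i + k + 1)) (n - (k + 1)) rfl (by omega)
        (by omega) (by omega) a.1 b.1 x,
      Q.left_comm i j (n - (i + j + k + 1)) (n - (i + k + 1)) (n - (j + k + 1)) (n - (k + 1))
        (by omega) (by omega) (by omega) (by omega) a.1 b.1 x]
    simp only [map_smul, smul_eq_mul, mul_add, add_mul, sgn_add]
    ring

theorem cone_comm (Q : CDGA) (n : ℤ) (i j l : ℤ) (h : i + j = l) (h' : j + i = l)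
    (a : Q.ConeW n i) (b : Q.ConeW n j) :
    coneMul Q n i j l h a b = sgn (i * j) • coneMul Q n j i l h' b a := by
  refine Prod.ext ?_ ?_
  · rw [coneMul_fst, Prod.smul_fst, coneMul_fst]
    exact Q.comm i j l h h' a.1 b.1
  · ext x
    rw [Prod.smul_snd, LinearMap.smul_apply, coneMul_snd_apply, coneMul_snd_apply,
      mul_comm j i, smul_eq_mul]
    have h3 := sgn_sq (i * j)
    linear_combination (- a.2 (Q.mul j (n - (l + 1)) (n - (i + 1)) (by omega) b.1 x)) * h3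

theorem cone_leib {Q : CDGA} {n : ℤ} (Ψ : Balanced Q n) (i j l i' j' l' : ℤ) (h : i + j = l)
    (hi : i + 1 = i') (hj : j + 1 = j') (hl : l + 1 = l') (h1 : i' + j = l') (h2 : i + j' = l')
    (a : Q.ConeW n i) (b : Q.ConeW n j) :
    coneD Ψ l l' hl (coneMul Q n i j l h a b) =
      coneMul Q n i' j l' h1 (coneD Ψ i i' hi a) b +
        sgn i • coneMul Q n i j' l' h2 a (coneD Ψ j j' hj b) := by
  subst hi
  subst hj
  subst hl
  subst h
  obtain ⟨q, φ⟩ := a
  obtain ⟨q', φ'⟩ := b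
  refine Prod.ext ?_ ?_
  · rw [Prod.fst_add, Prod.smul_fst, coneMul_fst, coneMul_fst]
    have e : (coneD Ψ (i + j) (i + j + 1) rfl (coneMul Q n i j (i + j) rfl (q, φ) (q', φ'))).1 =
        Q.d (i + j) (i + j + 1) rfl (Q.mul i j (i + j) rfl q q') +
          Ψ.ψ (i + j + 1) (sgn i • Q.shAct n i (j + 1) (i + j + 1) (by omega) q φ' +
          (sgn (i * j) * sgn j) • Q.shAct n j (i + 1) (i + j + 1) (by omega) q' φ) := rfl
    rw [e, map_add, map_smul, map_smul, Ψ.lin, Ψ.lin,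
      Q.leib i j (i + j) (i + 1) (j + 1) (i + j + 1) rfl rfl rfl rfl h1 h2 q q']
    change _ = Q.mul (i + 1) j (i + j + 1) h1 (Q.d i (i + 1) rfl q + Ψ.ψ (i + 1) φ) q' +
      sgn i • Q.mul i (j + 1) (i + j + 1) h2 q (Q.d j (j + 1) rfl q' + Ψ.ψ (j + 1) φ')
    rw [map_add, LinearMap.add_apply, map_add, smul_add,
      Q.comm (i + 1) j (i + j + 1) h1 (by omega) (Ψ.ψ (i + 1) φ) q']
    have e2 : sgn ((i + 1) * j) = sgn (i * j) * sgn j := by rw [add_mul, _root_.one_mul, sgn_add]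
    rw [e2]
    abel
  · ext x
    have e : (coneD Ψ (i + j) (i + j + 1) rfl (coneMul Q n i j (i + j) rfl (q, φ) (q', φ'))).2 x =
        - Q.shD n (i + j + 1) (i + j + 1 + 1) (by omega)
          (coneMul Q n i j (i + j) rfl (q, φ) (q', φ')).2 x := rfl
    rw [e, shD_apply, coneMul_snd_apply, Prod.snd_add, LinearMap.add_apply, coneMul_snd_apply,
      Prod.smul_snd, LinearMap.smul_apply, coneMul_snd_apply, coneD_apply, coneD_apply]
    simp only [map_add, LinearMap.add_apply, LinearMap.neg_apply]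
    rw [shD_apply, shD_apply]
    rw [Q.leib j (n - (i + j + 1 + 1)) (n - (i + 1 + 1)) (j + 1) (n - (i + j + 1)) (n - (i + 1))
      (by omega) rfl (by omega) (by omega) (by omega) (by omega) q' x]
    rw [Q.leib i (n - (i + j + 1 + 1)) (n - (j + 1 + 1)) (i + 1) (n - (i + j + 1)) (n - (j + 1))
      (by omega) rfl (by omega) (by omega) (by omega) (by omega) q x]
    have hb := bal_apply Ψ (i + 1) (j + 1) (i + j + 1 + 1) (by omega) φ φ' x
    rw [hb]
    simp only [map_add, map_smul, smul_eq_mul, mul_add, add_mul, sgn_add, _root_.one_mul,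
      _root_.mul_one, sgn_one]
    rcases sgn_cases i with h5 | h5 <;> rcases sgn_cases j with h6 | h6 <;>
      rcases sgn_cases (i * j) with h7 | h7 <;> simp only [h5, h6, h7] <;> ring


theorem coneδ_eq {Q : CDGA} {n : ℤ} (Ψ : Balanced Q n) (i j : ℤ) (h : i + 1 = j)
    (z : Q.ConeV n i) : coneδ Ψ h z = coneD Ψ i j h z := by
  subst h
  rfl

theorem coneμ_eq (Q : CDGA) (n : ℤ) (i j l : ℤ) (h : i + j = l) (z : Q.ConeV n i)
    (w : Q.ConeV n j) : coneμ Q n h z w = coneMul Q n i j l h z w := rfl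

end CDGA

end Pool.Agent.Q171.CE
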