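import Mathlib
import Pool.Agent.Q171.CE.Lin

/-!
# The semi-trivial mapping cone is a CDGA
-/

set_option autoImplicit false

namespace Pool.Agent.Q171.CE

namespace CDGA

/-! ### The axioms of the cone -/

section axioms

variable {Q : CDGA} {n : ℤ}

theorem coneδ_add (Ψ : Balanced Q n) {i j : ℤ} (h : i + 1 = j) (a b : Q.ConeV n i) :
    coneδ Ψ h (a + b) = coneδ Ψ h a + coneδ Ψ h b := by
  rw [coneδ_eq, coneδ_eq, coneδ_eq]
  exact map_add (coneD Ψ i j h) a b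

theorem coneδ_smul (Ψ : Balanced Q n) {i j : ℤ} (h : i + 1 = j) (c : ℚ) (a : Q.ConeV n i) :
    coneδ Ψ h (c • a) = c • coneδ Ψ h a := by
  rw [coneδ_eq, coneδ_eq]
  exact map_smul (coneD Ψ i j h) c a

theorem add_coneμ {i j l : ℤ} (h : i + j = l) (a a' : Q.ConeV n i) (b : Q.ConeV n j) :
    coneμ Q n h (a + a') b = coneμ Q n h a b + coneμ Q n h a' b :=
  coneMulF_add_left Q n i j l h a a' b

theorem smul_coneμ {i j l : ℤ} (h : i + j = l) (c : ℚ) (a : Q.ConeV n i) (b : Q.ConeV n j) :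
    coneμ Q n h (c • a) b = c • coneμ Q n h a b :=
  coneMulF_smul_left Q n i j l h c a b

theorem coneμ_add {i j l : ℤ} (h : i + j = l) (a : Q.ConeV n i) (b b' : Q.ConeV n j) :
    coneμ Q n h a (b + b') = coneμ Q n h a b + coneμ Q n h a b' :=
  coneMulF_add_right Q n i j l h a b b'

theorem coneμ_smul {i j l : ℤ} (h : i + j = l) (c : ℚ) (a : Q.ConeV n i) (b : Q.ConeV n j) :
    coneμ Q n h a (c • b) = c • coneμ Q n h a b :=
  coneMulF_smul_right Q n i j l h c a b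

theorem coneδδ (Ψ : Balanced Q n) {i j l : ℤ} (h : i + 1 = j) (h' : j + 1 = l)
    (a : Q.ConeV n i) : coneδ Ψ h' (coneδ Ψ h a) = 0 := by
  rw [coneδ_eq, coneδ_eq]
  exact cone_dd Ψ i j l h h' a

theorem one_coneμ {i : ℤ} (h : 0 + i = i) (a : Q.ConeV n i) :
    coneμ Q n h (Q.one, 0) a = a := cone_one_mul Q n i h a

theorem coneμ_one {i : ℤ} (h : i + 0 = i) (a : Q.ConeV n i) :
    coneμ Q n h a (Q.one, 0) = a := cone_mul_one Q n i h a

theorem coneμ_assoc {i j k ij jk l : ℤ} (h1 : i + j = ij) (h2 : j + k = jk)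
    (h3 : ij + k = l) (h4 : i + jk = l) (a : Q.ConeV n i) (b : Q.ConeV n j) (c : Q.ConeV n k) :
    coneμ Q n h3 (coneμ Q n h1 a b) c = coneμ Q n h4 a (coneμ Q n h2 b c) :=
  cone_assoc Q n i j k ij jk l h1 h2 h3 h4 a b c

theorem coneμ_comm {i j l : ℤ} (h : i + j = l) (h' : j + i = l) (a : Q.ConeV n i)
    (b : Q.ConeV n j) : coneμ Q n h a b = sgn (i * j) • coneμ Q n h' b a :=
  cone_comm Q n i j l h h' a b

theorem coneδ_μ (Ψ : Balanced Q n) {i j l i' j' l' : ℤ} (h : i + j = l)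
    (hi : i + 1 = i') (hj : j + 1 = j') (hl : l + 1 = l') (h1 : i' + j = l') (h2 : i + j' = l')
    (a : Q.ConeV n i) (b : Q.ConeV n j) :
    coneδ Ψ hl (coneμ Q n h a b) =
      coneμ Q n h1 (coneδ Ψ hi a) b + sgn i • coneμ Q n h2 a (coneδ Ψ hj b) := by
  rw [coneδ_eq, coneδ_eq, coneδ_eq]
  exact cone_leib Ψ i j l i' j' l' h hi hj hl h1 h2 a b

end axioms

/-- the semi-trivial mapping cone `Q ⊕_Ψ s s^{-n} # Q` -/
def cone (Q : CDGA) (n : ℤ) (Ψ : Balanced Q n) : CDGA where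
  V := Q.ConeV n
  δ := coneδ Ψ
  μ := coneμ Q n
  one := (Q.one, 0)
  δ_add := coneδ_add Ψ
  δ_smul := coneδ_smul Ψ
  add_μ := add_coneμ
  smul_μ := smul_coneμ
  μ_add := coneμ_add
  μ_smul := coneμ_smul
  δδ := coneδδ Ψ
  one_μ := one_coneμ
  μ_one := coneμ_one
  μ_assoc := coneμ_assoc
  μ_comm := coneμ_comm
  δ_μ := coneδ_μ Ψ

end CDGA

end Pool.Agent.Q171.CE
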