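import Mathlib
import Pool.Agent.Q171.CE.Cone

/-!
# The structure of the cone in relation form
-/

set_option autoImplicit false

namespace Pool.Agent.Q171.CE

namespace CDGA

theorem cast_rfl (Q : CDGA) {i : ℤ} (h : i = i) (x : Q.V i) : Q.cast h x = x := rfl

variable {Q : CDGA} {n : ℤ} (Ψ : Balanced Q n)

/-- `Ψ` on functionals on `Q^j`, `p + j = n` -/
def psiR (p j : ℤ) (h : p + j = n) : Module.Dual ℚ (Q.V j) →ₗ[ℚ] Q.V p :=
  Ψ.ψ p ∘ₗ LinearMap.dualMap (Q.cast (show n - p = j by omega)).toLinearMap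

/-- elements of the cone -/
def mkC (p j : ℤ) (h : p + 1 + j = n) (q : Q.V p) (φ : Module.Dual ℚ (Q.V j)) :
    (cone Q n Ψ).V p :=
  (q, φ ∘ₗ (Q.cast (show n - (p + 1) = j by omega)).toLinearMap)

theorem mkC_surj (p j : ℤ) (h : p + 1 + j = n) (z : (cone Q n Ψ).V p) :
    ∃ q φ, z = mkC Ψ p j h q φ := by
  obtain rfl : j = n - (p + 1) := by omega
  exact ⟨z.1, z.2, rfl⟩

theorem mkC_inj (p j : ℤ) (h : p + 1 + j = n) (q q' : Q.V p) (φ φ' : Module.Dual ℚ (Q.V j))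
    (e : mkC Ψ p j h q φ = mkC Ψ p j h q' φ') : q = q' ∧ φ = φ' := by
  obtain rfl : j = n - (p + 1) := by omega
  exact ⟨congrArg Prod.fst e, congrArg Prod.snd e⟩

theorem mkC_add (p j : ℤ) (h : p + 1 + j = n) (q q' : Q.V p) (φ φ' : Module.Dual ℚ (Q.V j)) :
    mkC Ψ p j h q φ + mkC Ψ p j h q' φ' = mkC Ψ p j h (q + q') (φ + φ') := by
  obtain rfl : j = n - (p + 1) := by omega
  rfl

theorem mkC_sub (p j : ℤ) (h : p + 1 + j = n) (q q' : Q.V p) (φ φ' : Module.Dual ℚ (Q.V j)) :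
    mkC Ψ p j h q φ - mkC Ψ p j h q' φ' = mkC Ψ p j h (q - q') (φ - φ') := by
  obtain rfl : j = n - (p + 1) := by omega
  rfl

theorem mkC_smul (p j : ℤ) (h : p + 1 + j = n) (c : ℚ) (q : Q.V p) (φ : Module.Dual ℚ (Q.V j)) :
    c • mkC Ψ p j h q φ = mkC Ψ p j h (c • q) (c • φ) := by
  obtain rfl : j = n - (p + 1) := by omega
  rfl

theorem mkC_zero (p j : ℤ) (h : p + 1 + j = n) : mkC Ψ p j h 0 0 = 0 := by
  obtain rfl : j = n - (p + 1) := by omega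
  rfl

theorem mkC_one (j : ℤ) (h : 0 + 1 + j = n) : mkC Ψ 0 j h Q.one 0 = (cone Q n Ψ).one := by
  obtain rfl : j = n - (0 + 1) := by omega
  rfl

theorem mkC_d (p p' j j' : ℤ) (h : p + 1 + j = n) (h' : p' + 1 + j' = n) (hp : p + 1 = p')
    (hj : j' + 1 = j) (hpj : p' + j = n) (q : Q.V p) (φ : Module.Dual ℚ (Q.V j)) :
    (cone Q n Ψ).d p p' hp (mkC Ψ p j h q φ) =
      mkC Ψ p' j' h' (Q.d p p' hp q + psiR Ψ p' j hpj φ) (sgn p' • φ ∘ₗ Q.d j' j hj) := by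
  subst hp
  obtain rfl : j = n - (p + 1) := by omega
  obtain rfl : j' = n - (p + 1 + 1) := by omega
  refine Prod.ext rfl ?_
  ext x
  change (- Q.shD n (p + 1) (p + 1 + 1) rfl φ) x = (sgn (p + 1) • φ ∘ₗ Q.d _ _ hj) x
  rw [LinearMap.neg_apply, shD_apply, neg_neg]
  rfl

theorem mkC_mul (p p' l j j' t : ℤ) (h : p + 1 + j = n) (h' : p' + 1 + j' = n)
    (ht : l + 1 + t = n) (hl : p + p' = l) (h1 : p' + t = j) (h2 : p + t = j')
    (q : Q.V p) (φ : Module.Dual ℚ (Q.V j)) (q' : Q.V p') (φ' : Module.Dual ℚ (Q.V j')) :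
    (cone Q n Ψ).mul p p' l hl (mkC Ψ p j h q φ) (mkC Ψ p' j' h' q' φ') =
      mkC Ψ l t ht (Q.mul p p' l hl q q')
        (φ ∘ₗ Q.mul p' t j h1 q' + sgn (p * p') • φ' ∘ₗ Q.mul p t j' h2 q) := by
  obtain rfl : j = n - (p + 1) := by omega
  obtain rfl : j' = n - (p' + 1) := by omega
  obtain rfl : t = n - (l + 1) := by omega
  refine Prod.ext rfl ?_
  ext x
  exact coneMul_snd_apply Q n p p' l hl _ _ x

theorem psiR_bal (p q s j j' t : ℤ) (h : p + j = n) (h' : q + j' = n) (h1 : p + t = j')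
    (h2 : q + t = j) (φ : Module.Dual ℚ (Q.V j)) (φ' : Module.Dual ℚ (Q.V j')) (x : Q.V t)
    (hs : p * q = s) :
    φ' (Q.mul p t j' h1 (psiR Ψ p j h φ) x) = sgn s * φ (Q.mul q t j h2 (psiR Ψ q j' h' φ') x) := by
  obtain rfl : j = n - p := by omega
  obtain rfl : j' = n - q := by omega
  obtain rfl : t = n - (p + q) := by omega
  subst hs
  exact bal_apply Ψ p q (p + q) rfl φ φ' x

end CDGA

end Pool.Agent.Q171.CE
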