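import Mathlib
import Pool.Agent.Q171.CE.Rel

/-!
# Quasi-isomorphic CDGAs have isomorphic cohomology algebras
-/

set_option autoImplicit false

namespace Pool.Agent.Q171.CE

namespace CDGA

/-- the class of a cocycle -/
abbrev cl (A : CDGA) (i : ℤ) (a : A.V i) (ha : A.d i (i + 1) rfl a = 0) : A.H i :=
  A.cls ⟨a, ha⟩

/-- the product with explicit degrees -/
abbrev mH (A : CDGA) (i j l : ℤ) (h : i + j = l) (x : A.H i) (y : A.H j) : A.H l :=
  A.mulH h x y

theorem cls_surj (A : CDGA) (i : ℤ) (z : A.H i) : ∃ a ha, A.cl i a ha = z := by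
  obtain ⟨⟨a, ha⟩, rfl⟩ := Submodule.mkQ_surjective (A.B i) z
  exact ⟨a, ha, rfl⟩

theorem mul_mem_Z (A : CDGA) (i j l : ℤ) (h : i + j = l) (a : A.V i) (b : A.V j)
    (ha : A.d i (i + 1) rfl a = 0) (hb : A.d j (j + 1) rfl b = 0) :
    A.d l (l + 1) rfl (A.mul i j l h a b) = 0 := A.μ_mem_Z h ⟨a, ha⟩ ⟨b, hb⟩

theorem mH_cl (A : CDGA) (i j l : ℤ) (h : i + j = l) (a : A.V i) (b : A.V j)
    (ha : A.d i (i + 1) rfl a = 0) (hb : A.d j (j + 1) rfl b = 0)
    (hab : A.d l (l + 1) rfl (A.mul i j l h a b) = 0) :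
    A.mH i j l h (A.cl i a ha) (A.cl j b hb) = A.cl l (A.mul i j l h a b) hab := rfl

theorem d_one (A : CDGA) : A.d 0 (0 + 1) rfl A.one = 0 := by
  have h := A.leib 0 0 0 (0 + 1) (0 + 1) (0 + 1) (by ring) rfl rfl rfl (by ring) (by ring)
    A.one A.one
  rw [A.one_mul, A.mul_one (0 + 1), A.one_mul (0 + 1)] at h
  simpa [sgn] using h

theorem cl_add (A : CDGA) (i : ℤ) (a b : A.V i) (ha : A.d i (i + 1) rfl a = 0)
    (hb : A.d i (i + 1) rfl b = 0) (hab : A.d i (i + 1) rfl (a + b) = 0) :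
    A.cl i (a + b) hab = A.cl i a ha + A.cl i b hb := rfl

theorem cl_smul (A : CDGA) (i : ℤ) (c : ℚ) (a : A.V i) (ha : A.d i (i + 1) rfl a = 0)
    (hab : A.d i (i + 1) rfl (c • a) = 0) : A.cl i (c • a) hab = c • A.cl i a ha := rfl

theorem one_mH (A : CDGA) (i : ℤ) (h : 0 + i = i) (z : A.H i) :
    A.mH 0 i i h (A.cl 0 A.one A.d_one) z = z := by
  obtain ⟨a, ha, rfl⟩ := A.cls_surj i z
  rw [A.mH_cl 0 i i h _ _ _ _ (by rw [A.one_mul]; exact ha)]
  congr 2
  exact A.one_mul i h a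

theorem mH_add (A : CDGA) (i j l : ℤ) (h : i + j = l) (x : A.H i) (y y' : A.H j) :
    A.mH i j l h x (y + y') = A.mH i j l h x y + A.mH i j l h x y' := by
  obtain ⟨a, ha, rfl⟩ := A.cls_surj i x
  obtain ⟨b, hb, rfl⟩ := A.cls_surj j y
  obtain ⟨b', hb', rfl⟩ := A.cls_surj j y'
  have h1 : A.d j (j + 1) rfl (b + b') = 0 := by rw [map_add, hb, hb', add_zero]
  rw [← A.cl_add j b b' hb hb' h1,
    A.mH_cl i j l h a _ ha h1 (A.mul_mem_Z i j l h a _ ha h1),
    A.mH_cl i j l h a b ha hb (A.mul_mem_Z i j l h a b ha hb),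
    A.mH_cl i j l h a b' ha hb' (A.mul_mem_Z i j l h a b' ha hb')]
  change A.cls ⟨A.mul i j l h a (b + b'), _⟩ = A.cls (⟨A.mul i j l h a b, _⟩ +
    ⟨A.mul i j l h a b', _⟩)
  congr 1
  apply Subtype.ext
  exact map_add (A.mul i j l h a) b b'

theorem mH_smul (A : CDGA) (i j l : ℤ) (h : i + j = l) (x : A.H i) (c : ℚ) (y : A.H j) :
    A.mH i j l h x (c • y) = c • A.mH i j l h x y := by
  obtain ⟨a, ha, rfl⟩ := A.cls_surj i x
  obtain ⟨b, hb, rfl⟩ := A.cls_surj j y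
  have h1 : A.d j (j + 1) rfl (c • b) = 0 := by rw [map_smul, hb, smul_zero]
  rw [← A.cl_smul j c b hb h1,
    A.mH_cl i j l h a _ ha h1 (A.mul_mem_Z i j l h a _ ha h1),
    A.mH_cl i j l h a b ha hb (A.mul_mem_Z i j l h a b ha hb)]
  change A.cls ⟨A.mul i j l h a (c • b), _⟩ = A.cls (c • ⟨A.mul i j l h a b, _⟩)
  congr 1
  apply Subtype.ext
  exact map_smul (A.mul i j l h a) c b

theorem mH_comm (A : CDGA) (i j l : ℤ) (h : i + j = l) (h' : j + i = l) (x : A.H i)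
    (y : A.H j) : A.mH i j l h x y = sgn (i * j) • A.mH j i l h' y x := by
  obtain ⟨a, ha, rfl⟩ := A.cls_surj i x
  obtain ⟨b, hb, rfl⟩ := A.cls_surj j y
  rw [A.mH_cl i j l h a b ha hb (A.mul_mem_Z i j l h a b ha hb),
    A.mH_cl j i l h' b a hb ha (A.mul_mem_Z j i l h' b a hb ha)]
  change A.cls ⟨A.mul i j l h a b, _⟩ = A.cls (sgn (i * j) • ⟨A.mul j i l h' b a, _⟩)
  congr 1
  apply Subtype.ext
  exact A.comm i j l h h' a b

theorem mH_assoc (A : CDGA) (i j k ij jk l : ℤ) (h1 : i + j = ij) (h2 : j + k = jk)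
    (h3 : ij + k = l) (h4 : i + jk = l) (x : A.H i) (y : A.H j) (z : A.H k) :
    A.mH ij k l h3 (A.mH i j ij h1 x y) z = A.mH i jk l h4 x (A.mH j k jk h2 y z) := by
  obtain ⟨a, ha, rfl⟩ := A.cls_surj i x
  obtain ⟨b, hb, rfl⟩ := A.cls_surj j y
  obtain ⟨c, hc, rfl⟩ := A.cls_surj k z
  have hab := A.mul_mem_Z i j ij h1 a b ha hb
  have hbc := A.mul_mem_Z j k jk h2 b c hb hc
  rw [A.mH_cl i j ij h1 a b ha hb hab, A.mH_cl j k jk h2 b c hb hc hbc,
    A.mH_cl ij k l h3 _ c hab hc (A.mul_mem_Z ij k l h3 _ c hab hc),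
    A.mH_cl i jk l h4 a _ ha hbc (A.mul_mem_Z i jk l h4 a _ ha hbc)]
  have e : (⟨A.mul ij k l h3 (A.mul i j ij h1 a b) c, A.mul_mem_Z ij k l h3 _ c hab hc⟩ : A.Z l) =
      ⟨A.mul i jk l h4 a (A.mul j k jk h2 b c), A.mul_mem_Z i jk l h4 a _ ha hbc⟩ :=
    Subtype.ext (A.assoc i j k ij jk l h1 h2 h3 h4 a b c)
  exact congrArg A.cls e

theorem mH_zero (A : CDGA) (i j l : ℤ) (h : i + j = l) (x : A.H i) :
    A.mH i j l h x 0 = 0 := by
  have := A.mH_smul i j l h x 0 0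
  rwa [zero_smul, zero_smul] at this

theorem zero_mH (A : CDGA) (i j l : ℤ) (h : i + j = l) (y : A.H j) :
    A.mH i j l h 0 y = 0 := by
  rw [A.mH_comm i j l h (by omega), A.mH_zero, smul_zero]

/-- the product on cohomology as a bilinear map -/
def mHL (A : CDGA) (i j l : ℤ) (h : i + j = l) : A.H i →ₗ[ℚ] A.H j →ₗ[ℚ] A.H l :=
  LinearMap.mk₂ ℚ (A.mH i j l h)
    (fun x x' y => by
      rw [A.mH_comm i j l h (by omega), A.mH_comm i j l h (by omega) x,
        A.mH_comm i j l h (by omega) x', A.mH_add, smul_add])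
    (fun c x y => by
      rw [A.mH_comm i j l h (by omega), A.mH_comm i j l h (by omega) x, A.mH_smul, smul_comm])
    (fun x y y' => A.mH_add i j l h x y y')
    (fun c x y => A.mH_smul i j l h x c y)

theorem cls_eq_zero (A : CDGA) (i' i : ℤ) (h : i' + 1 = i) (a : A.V i)
    (ha : A.d i (i + 1) rfl a = 0) : A.cl i a ha = 0 ↔ ∃ b, A.d i' i h b = a := by
  obtain rfl : i' = i - 1 := by omega
  exact Submodule.Quotient.mk_eq_zero (A.B i)

theorem cls_eq (A : CDGA) (i' i : ℤ) (h : i' + 1 = i) (a a' : A.V i)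
    (ha : A.d i (i + 1) rfl a = 0) (ha' : A.d i (i + 1) rfl a' = 0) :
    A.cl i a ha = A.cl i a' ha' ↔ ∃ b, A.d i' i h b = a - a' := by
  have hs : A.d i (i + 1) rfl (a - a') = 0 := by rw [map_sub, ha, ha', sub_zero]
  have e : A.cl i (a - a') hs = A.cl i a ha - A.cl i a' ha' := rfl
  rw [← sub_eq_zero, ← e, cls_eq_zero A i' i h]

/-- isomorphism of cohomology algebras -/
structure CohIso (A B : CDGA) where
  e : ∀ i, A.H i ≃ₗ[ℚ] B.H i
  mul : ∀ i j l (h : i + j = l) (a : A.H i) (b : A.H j),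
    e l (A.mH i j l h a b) = B.mH i j l h (e i a) (e j b)

def CohIso.refl (A : CDGA) : CohIso A A where
  e := fun i => LinearEquiv.refl ℚ _
  mul := fun _ _ _ _ _ _ => rfl

def CohIso.symm {A B : CDGA} (f : CohIso A B) : CohIso B A where
  e := fun i => (f.e i).symm
  mul := by
    intro i j l h a b
    apply (f.e l).injective
    rw [f.mul]
    simp

def CohIso.trans {A B C : CDGA} (f : CohIso A B) (g : CohIso B C) : CohIso A C where
  e := fun i => (f.e i).trans (g.e i)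
  mul := by
    intro i j l h a b
    simp only [LinearEquiv.trans_apply]
    rw [f.mul, g.mul]

/-- the components of a morphism as linear maps -/
def _root_.Pool.Agent.Q171.CE.Hom.L {A B : CDGA} (f : Hom A B) (i : ℤ) : A.V i →ₗ[ℚ] B.V i where
  toFun := f.f
  map_add' := f.f_add
  map_smul' := f.f_smul

theorem _root_.Pool.Agent.Q171.CE.Hom.comm_d {A B : CDGA} (f : Hom A B) (i j : ℤ)
    (h : i + 1 = j) (a : A.V i) : f.L j (A.d i j h a) = B.d i j h (f.L i a) := f.f_δ h a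

theorem _root_.Pool.Agent.Q171.CE.Hom.map_mul {A B : CDGA} (f : Hom A B) (i j l : ℤ)
    (h : i + j = l) (a : A.V i) (b : A.V j) :
    f.L l (A.mul i j l h a b) = B.mul i j l h (f.L i a) (f.L j b) := f.f_μ h a b

/-- the map induced on cohomology -/
def _root_.Pool.Agent.Q171.CE.Hom.map {A B : CDGA} (f : Hom A B) (i : ℤ) :
    A.H i →ₗ[ℚ] B.H i :=
  Submodule.mapQ (A.B i) (B.B i) ((f.L i).restrict (p := A.Z i) (q := B.Z i) (fun a ha => by
    have ha' : A.d i (i + 1) rfl a = 0 := ha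
    change B.d i (i + 1) rfl (f.L i a) = 0
    rw [← f.comm_d, ha', map_zero]))
    (by
      rintro ⟨a, ha⟩ ⟨b, hb⟩
      refine ⟨f.L (i - 1) b, ?_⟩
      have h1 := f.comm_d (i - 1) i (sub_add_cancel i 1) b
      have h2 : A.d (i - 1) i (sub_add_cancel i 1) b = a := hb
      rw [h2] at h1
      exact h1.symm)

theorem _root_.Pool.Agent.Q171.CE.Hom.map_cls {A B : CDGA} (f : Hom A B) (i : ℤ) (a : A.V i)
    (ha : A.d i (i + 1) rfl a = 0) (hb : B.d i (i + 1) rfl (f.L i a) = 0) :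
    f.map i (A.cl i a ha) = B.cl i (f.L i a) hb := rfl

theorem nonempty_cohIso_of_quasiIso {A B : CDGA} (f : Hom A B) (hf : f.IsQuasiIso) :
    Nonempty (CohIso A B) := by
  have hc : ∀ i a, A.d i (i + 1) rfl a = 0 → B.d i (i + 1) rfl (f.L i a) = 0 := by
    intro i a ha
    rw [← f.comm_d, ha, map_zero]
  have hbij : ∀ i, Function.Bijective (f.map i) := by
    intro i
    constructor
    · rw [injective_iff_map_eq_zero]
      intro z hz
      obtain ⟨a, ha, rfl⟩ := A.cls_surj i z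
      rw [f.map_cls i a ha (hc i a ha), B.cls_eq_zero (i - 1) i (by ring)] at hz
      rw [A.cls_eq_zero (i - 1) i (by ring)]
      exact hf.1 (by ring) rfl a ha hz
    · intro z
      obtain ⟨b, hb, rfl⟩ := B.cls_surj i z
      obtain ⟨a, ha, hab⟩ := hf.2 (show i - 1 + 1 = i by ring) rfl b hb
      refine ⟨A.cl i a ha, ?_⟩
      rw [f.map_cls i a ha (hc i a ha), B.cls_eq (i - 1) i (by ring)]
      exact hab
  refine ⟨⟨fun i => LinearEquiv.ofBijective (f.map i) (hbij i), ?_⟩⟩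
  intro i j l h a b
  obtain ⟨a, ha, rfl⟩ := A.cls_surj i a
  obtain ⟨b, hb, rfl⟩ := A.cls_surj j b
  change f.map l _ = B.mH i j l h (f.map i _) (f.map j _)
  have h1 := A.mul_mem_Z i j l h a b ha hb
  rw [A.mH_cl i j l h a b ha hb h1, f.map_cls l _ h1 (hc l _ h1),
    f.map_cls i a ha (hc i a ha), f.map_cls j b hb (hc j b hb),
    B.mH_cl i j l h _ _ (hc i a ha) (hc j b hb)
      (B.mul_mem_Z i j l h _ _ (hc i a ha) (hc j b hb))]
  have e : (⟨f.L l (A.mul i j l h a b), hc l _ h1⟩ : B.Z l) =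
      ⟨B.mul i j l h (f.L i a) (f.L j b), B.mul_mem_Z i j l h _ _ (hc i a ha) (hc j b hb)⟩ :=
    Subtype.ext (f.map_mul i j l h a b)
  exact congrArg B.cls e

theorem nonempty_cohIso {A B : CDGA} (h : QuasiIsomorphic A B) : Nonempty (CohIso A B) := by
  induction h with
  | rel A B h =>
    obtain ⟨f, hf⟩ := h
    exact nonempty_cohIso_of_quasiIso f hf
  | refl A => exact ⟨CohIso.refl A⟩
  | symm A B _ ih =>
    obtain ⟨e⟩ := ih
    exact ⟨e.symm⟩
  | trans A B C _ _ ih1 ih2 =>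
    obtain ⟨e⟩ := ih1
    obtain ⟨e'⟩ := ih2
    exact ⟨e.trans e'⟩

end CDGA

end Pool.Agent.Q171.CE
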