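import Mathlib
import Pool.Agent.Q171.CE.Inv

/-!
# The Poincaré duality algebra with middle form `⟨1⟩ ⊕ ⟨-2⟩`
-/

set_option autoImplicit false

namespace Pool.Agent.Q171.CE

/-- the product of `ℚ[x,y]/(xy, y^2 + 2 x^2, x^3)` in the basis `1, x, y, x^2` -/
def mulW : (Fin 4 → ℚ) →ₗ[ℚ] (Fin 4 → ℚ) →ₗ[ℚ] (Fin 4 → ℚ) :=
  LinearMap.mk₂ ℚ (fun u v => ![u 0 * v 0, u 0 * v 1 + u 1 * v 0, u 0 * v 2 + u 2 * v 0,
      u 0 * v 3 + u 3 * v 0 + u 1 * v 1 - 2 * (u 2 * v 2)])
    (by intro a b c; ext i; fin_cases i <;> simp <;> ring)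
    (by intro a b c; ext i; fin_cases i <;> simp <;> ring)
    (by intro a b c; ext i; fin_cases i <;> simp <;> ring)
    (by intro a b c; ext i; fin_cases i <;> simp <;> ring)

theorem mulW_apply (u v : Fin 4 → ℚ) : mulW u v = ![u 0 * v 0, u 0 * v 1 + u 1 * v 0,
    u 0 * v 2 + u 2 * v 0, u 0 * v 3 + u 3 * v 0 + u 1 * v 1 - 2 * (u 2 * v 2)] := rfl

theorem mulW_comm (u v : Fin 4 → ℚ) : mulW u v = mulW v u := by
  rw [mulW_apply, mulW_apply]
  ext i
  fin_cases i <;> simp <;> ring

theorem mulW_assoc (u v w : Fin 4 → ℚ) : mulW (mulW u v) w = mulW u (mulW v w) := by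
  simp only [mulW_apply]
  ext i
  fin_cases i <;> simp <;> ring

/-- the unit -/
def oneW : Fin 4 → ℚ := ![1, 0, 0, 0]

theorem oneW_mul (u : Fin 4 → ℚ) : mulW oneW u = u := by
  rw [mulW_apply, oneW]
  ext i
  fin_cases i <;> simp

/-- the homogeneous elements of degree `i`: `1` has degree `0`, `x, y` have degree `2k`, `x^2`
has degree `4k` -/
def FW (k i : ℤ) : Submodule ℚ (Fin 4 → ℚ) where
  carrier := {u | (i ≠ 0 → u 0 = 0) ∧ (i ≠ 2 * k → u 1 = 0 ∧ u 2 = 0) ∧ (i ≠ 4 * k → u 3 = 0)}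
  zero_mem' := by simp
  add_mem' := by
    rintro u v ⟨h1, h2, h3⟩ ⟨h1', h2', h3'⟩
    refine ⟨fun h => ?_, fun h => ⟨?_, ?_⟩, fun h => ?_⟩
    · simp [h1 h, h1' h]
    · simp [(h2 h).1, (h2' h).1]
    · simp [(h2 h).2, (h2' h).2]
    · simp [h3 h, h3' h]
  smul_mem' := by
    rintro c u ⟨h1, h2, h3⟩
    refine ⟨fun h => ?_, fun h => ⟨?_, ?_⟩, fun h => ?_⟩
    · simp [h1 h]
    · simp [(h2 h).1]
    · simp [(h2 h).2]
    · simp [h3 h]

theorem mem_FW (k i : ℤ) (u : Fin 4 → ℚ) : u ∈ FW k i ↔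
    (i ≠ 0 → u 0 = 0) ∧ (i ≠ 2 * k → u 1 = 0 ∧ u 2 = 0) ∧ (i ≠ 4 * k → u 3 = 0) := Iff.rfl

theorem mulW_mem {k i j l : ℤ} (h : i + j = l) (u v : Fin 4 → ℚ) (hu : u ∈ FW k i)
    (hv : v ∈ FW k j) : mulW u v ∈ FW k l := by
  rw [mem_FW] at hu hv ⊢
  obtain ⟨h1, h2, h3⟩ := hu
  obtain ⟨h1', h2', h3'⟩ := hv
  rw [mulW_apply]
  simp only [Matrix.cons_val_zero, Matrix.cons_val_one, Matrix.cons_val]
  refine ⟨fun hl => ?_, fun hl => ⟨?_, ?_⟩, fun hl => ?_⟩
  · by_cases hi : i = 0
    · rw [h1' (by omega), mul_zero]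
    · rw [h1 hi, zero_mul]
  · by_cases hi : i = 0
    · rw [(h2' (by omega)).1]
      by_cases hj : j = 0
      · rw [(h2 (by omega)).1]; ring
      · rw [h1' hj]; ring
    · rw [h1 hi]
      by_cases hj : j = 0
      · rw [(h2 (by omega)).1]; ring
      · rw [h1' hj]; ring
  · by_cases hi : i = 0
    · rw [(h2' (by omega)).2]
      by_cases hj : j = 0
      · rw [(h2 (by omega)).2]; ring
      · rw [h1' hj]; ring
    · rw [h1 hi]
      by_cases hj : j = 0
      · rw [(h2 (by omega)).2]; ring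
      · rw [h1' hj]; ring
  · have e1 : u 0 * v 3 = 0 := by
      by_cases hi : i = 0
      · rw [h3' (by omega), mul_zero]
      · rw [h1 hi, zero_mul]
    have e2 : u 3 * v 0 = 0 := by
      by_cases hj : j = 0
      · rw [h3 (by omega), zero_mul]
      · rw [h1' hj, mul_zero]
    have e3 : u 1 * v 1 = 0 := by
      by_cases hi : i = 2 * k
      · rw [(h2' (by omega)).1, mul_zero]
      · rw [(h2 hi).1, zero_mul]
    have e4 : u 2 * v 2 = 0 := by
      by_cases hi : i = 2 * k
      · rw [(h2' (by omega)).2, mul_zero]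
      · rw [(h2 hi).2, zero_mul]
    rw [e1, e2, e3, e4]
    ring

theorem FW_odd {k i : ℤ} (hi : ¬ Even i) (u : Fin 4 → ℚ) (hu : u ∈ FW k i) : u = 0 := by
  rw [mem_FW] at hu
  obtain ⟨h1, h2, h3⟩ := hu
  have e0 : i ≠ 0 := by rintro rfl; exact hi (by simp)
  have e1 : i ≠ 2 * k := by rintro rfl; exact hi (by simp)
  have e2 : i ≠ 4 * k := by
    rintro rfl
    exact hi ⟨2 * k, by ring⟩
  ext t
  fin_cases t
  · exact h1 e0
  · exact (h2 e1).1
  · exact (h2 e1).2
  · exact h3 e2

/-- the example -/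
def exA (k : ℤ) : CDGA where
  V := fun i => FW k i
  δ := fun _ _ => 0
  μ := fun h u v => ⟨mulW u v, mulW_mem h _ _ u.2 v.2⟩
  one := ⟨oneW, by
    rw [mem_FW, oneW]
    simp⟩
  δ_add := by intros; simp
  δ_smul := by intros; simp
  add_μ := by intros; apply Subtype.ext; simp
  smul_μ := by intros; apply Subtype.ext; simp
  μ_add := by intros; apply Subtype.ext; simp
  μ_smul := by intros; apply Subtype.ext; simp
  δδ := by intros; rfl
  one_μ := by
    intro i h a
    apply Subtype.ext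
    exact oneW_mul a
  μ_one := by
    intro i h a
    apply Subtype.ext
    change mulW a oneW = a
    rw [mulW_comm]
    exact oneW_mul a
  μ_assoc := by
    intro i j k' ij jk l h1 h2 h3 h4 a b c
    apply Subtype.ext
    exact mulW_assoc a b c
  μ_comm := by
    intro i j l h h' a b
    apply Subtype.ext
    change mulW a b = sgn (i * j) • mulW b a
    by_cases hi : Even i
    · have : sgn (i * j) = 1 := by
        unfold sgn
        rw [if_pos (hi.mul_right j)]
      rw [this, one_smul, mulW_comm]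
    · rw [FW_odd hi a.1 a.2]
      simp
  δ_μ := by
    intros
    apply Subtype.ext
    simp

namespace CDGA

variable {k : ℤ}

theorem ex_d (i j : ℤ) (h : i + 1 = j) (u : (exA k).V i) : (exA k).d i j h u = 0 := rfl

/-- the class of a homogeneous element -/
def ecls (i : ℤ) : FW k i →ₗ[ℚ] (exA k).H i where
  toFun u := (exA k).cl i u (ex_d i (i + 1) rfl u)
  map_add' := fun _ _ => rfl
  map_smul' := fun _ _ => rfl

theorem ecls_inj (i : ℤ) : Function.Injective (ecls (k := k) i) := by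
  rw [injective_iff_map_eq_zero]
  intro u hu
  have h1 := ((exA k).cls_eq_zero (i - 1) i (by ring) u (ex_d i (i + 1) rfl u)).mp hu
  obtain ⟨b, hb⟩ := h1
  rw [ex_d] at hb
  exact hb.symm

theorem ecls_surj (i : ℤ) : Function.Surjective (ecls (k := k) i) := by
  intro z
  obtain ⟨u, hu, rfl⟩ := (exA k).cls_surj i z
  exact ⟨u, rfl⟩

theorem ecls_mul (i j l : ℤ) (h : i + j = l) (u : FW k i) (v : FW k j) :
    (exA k).mH i j l h (ecls i u) (ecls j v) = ecls l ⟨mulW u v, mulW_mem h _ _ u.2 v.2⟩ := rfl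

/-- the identification of cohomology with the algebra -/
noncomputable def eIso (i : ℤ) : FW k i ≃ₗ[ℚ] (exA k).H i :=
  LinearEquiv.ofBijective (ecls i) ⟨ecls_inj i, ecls_surj i⟩

theorem eIso_apply (i : ℤ) (u : FW k i) : eIso i u = ecls i u := rfl

theorem eIso_symm (i : ℤ) (u : FW k i) : (eIso i).symm (ecls i u) = u :=
  (eIso i).symm_apply_apply u

/-- the orientation -/
noncomputable def om (m : ℤ) : (exA k).H m →ₗ[ℚ] ℚ :=
  (LinearMap.proj (3 : Fin 4)) ∘ₗ (FW k m).subtype ∘ₗ (eIso m).symm.toLinearMap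

theorem om_ecls (m : ℤ) (u : FW k m) : om m (ecls m u) = (u : Fin 4 → ℚ) 3 := by
  simp only [om, LinearMap.comp_apply, LinearEquiv.coe_coe, eIso_symm, Submodule.subtype_apply,
    LinearMap.proj_apply]

/-- the duality pairing -/
noncomputable def pairing (m p q : ℤ) (h : p + q = m) :
    (exA k).H p →ₗ[ℚ] (exA k).H q →ₗ[ℚ] ℚ :=
  ((exA k).mHL p q m h).compr₂ (om m)

theorem pairing_apply (m p q : ℤ) (h : p + q = m) (a : (exA k).H p) (b : (exA k).H q) :
    pairing m p q h a b = om m ((exA k).mH p q m h a b) := rfl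

theorem pairing_ecls (m p q : ℤ) (h : p + q = m) (u : FW k p) (v : FW k q) :
    pairing m p q h (ecls p u) (ecls q v) = mulW u v 3 := by
  rw [pairing_apply, ecls_mul, om_ecls]

theorem pairing_inj (p q : ℤ) (h : p + q = 4 * k) :
    Function.Injective (pairing (k := k) (4 * k) p q h) := by
  rw [injective_iff_map_eq_zero]
  intro z hz
  obtain ⟨u, rfl⟩ := ecls_surj p z
  have h1 : ∀ v : FW k q, mulW u v 3 = 0 := by
    intro v
    rw [← pairing_ecls (4 * k) p q h u v, hz]
    rfl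
  have hu := u.2
  rw [mem_FW] at hu
  obtain ⟨h2, h3, h4⟩ := hu
  have : u = 0 := by
    apply Subtype.ext
    ext t
    fin_cases t
    · by_cases hp : p = 0
      · have h5 := h1 ⟨![0, 0, 0, 1], by
          rw [mem_FW]
          simp
          omega⟩
        simpa [mulW_apply] using h5
      · exact h2 hp
    · by_cases hp : p = 2 * k
      · have h5 := h1 ⟨![0, 1, 0, 0], by
          rw [mem_FW]
          simp
          omega⟩
        simpa [mulW_apply] using h5
      · exact (h3 hp).1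
    · by_cases hp : p = 2 * k
      · have h5 := h1 ⟨![0, 0, 1, 0], by
          rw [mem_FW]
          simp
          omega⟩
        simpa [mulW_apply] using h5
      · exact (h3 hp).2
    · by_cases hp : p = 4 * k
      · have h5 := h1 ⟨![1, 0, 0, 0], by
          rw [mem_FW]
          simp
          omega⟩
        simpa [mulW_apply] using h5
      · exact h4 hp
  rw [this, map_zero]

instance (i : ℤ) : FiniteDimensional ℚ ((exA k).H i) :=
  Module.Finite.equiv (eIso (k := k) i)

theorem pairing_perf (p q : ℤ) (h : p + q = 4 * k) :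
    (pairing (k := k) (4 * k) p q h).IsPerfPair := by
  apply LinearMap.IsPerfPair.of_injective (pairing_inj p q h)
  rw [injective_iff_map_eq_zero]
  intro z hz
  have h1 : pairing (k := k) (4 * k) q p (by omega) z = 0 := by
    apply LinearMap.ext
    intro w
    have h2 := congrArg (fun F => F w) hz
    simp only [LinearMap.flip_apply, LinearMap.zero_apply] at h2
    obtain ⟨u, rfl⟩ := ecls_surj q z
    obtain ⟨v, rfl⟩ := ecls_surj p w
    rw [pairing_ecls] at h2 ⊢
    rw [mulW_comm]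
    exact h2
  exact (injective_iff_map_eq_zero _).mp (pairing_inj q p (by omega)) z h1

theorem finrank_H0 (hk : 1 ≤ k) : Module.finrank ℚ ((exA k).H 0) = 1 := by
  rw [← (eIso (k := k) 0).finrank_eq, finrank_eq_one_iff']
  refine ⟨⟨oneW, (exA k).one.2⟩, ?_, ?_⟩
  · intro h
    have := congrArg (fun u : FW k 0 => (u : Fin 4 → ℚ) 0) h
    simp [oneW] at this
  · intro u
    refine ⟨(u : Fin 4 → ℚ) 0, ?_⟩
    have hu := u.2
    rw [mem_FW] at hu
    obtain ⟨h2, h3, h4⟩ := hu
    apply Subtype.ext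
    ext t
    fin_cases t
    · simp [oneW]
    · simp [oneW, (h3 (by omega)).1]
    · simp [oneW, (h3 (by omega)).2]
    · simp [oneW, h4 (by omega)]

theorem ex_PD (hk : 1 ≤ k) : (exA k).PoincareDuality (4 * k) := by
  refine ⟨finrank_H0 hk, fun i => inferInstanceAs (FiniteDimensional ℚ ((exA k).H i)), ?_, ?_⟩
  · apply Set.Finite.subset (Set.toFinite ({0, 2 * k, 4 * k} : Set ℤ))
    intro i hi
    by_contra hcon
    simp only [Set.mem_insert_iff, Set.mem_singleton_iff, not_or] at hcon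
    have hi' : Nontrivial ((exA k).H i) := hi
    have h1 : Nontrivial (FW k i) := (eIso (k := k) i).toEquiv.nontrivial
    obtain ⟨u, hu⟩ := exists_ne (0 : FW k i)
    apply hu
    have hu' := u.2
    rw [mem_FW] at hu'
    obtain ⟨h2, h3, h4⟩ := hu'
    apply Subtype.ext
    ext t
    fin_cases t
    · exact h2 hcon.1
    · exact (h3 hcon.2.1).1
    · exact (h3 hcon.2.1).2
    · exact h4 hcon.2.2
  · have hp := fun p : ℤ => pairing_perf (k := k) p (4 * k - p) (by ring)
    refine ⟨fun p => @LinearMap.toPerfPair _ _ _ _ _ _ _ _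
      (pairing (k := k) (4 * k) p (4 * k - p) (by ring)) (hp p), ?_⟩
    intro i p l h a b y
    change om (4 * k) ((exA k).mH l (4 * k - l) (4 * k) _ ((exA k).mH i p l h a b) y) =
      sgn (i * p) * om (4 * k) ((exA k).mH p (4 * k - p) (4 * k) _ b
        ((exA k).mH i (4 * k - l) (4 * k - p) _ a y))
    rw [(exA k).mH_assoc i p (4 * k - l) l (4 * k - i) (4 * k) h (by omega) (by omega) (by omega)
      a b y, ← (exA k).mH_assoc p i (4 * k - l) l (4 * k - p) (4 * k) (by omega) (by omega)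
      (by omega) (by omega) b a y, (exA k).mH_comm p i l (by omega) h b a,
      ← (exA k).mH_assoc i p (4 * k - l) l (4 * k - i) (4 * k) h (by omega) (by omega) (by omega)
      a b y]
    have h1 : (exA k).mH l (4 * k - l) (4 * k) (by omega)
        (sgn (p * i) • (exA k).mH i p l h a b) y =
        sgn (p * i) • (exA k).mH l (4 * k - l) (4 * k) (by omega) ((exA k).mH i p l h a b) y :=
      LinearMap.congr_fun (((exA k).mHL l (4 * k - l) (4 * k) (by omega)).map_smul
        (sgn (p * i)) ((exA k).mH i p l h a b)) y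
    rw [h1, map_smul, smul_eq_mul, ← mul_assoc, mul_comm p i, sgn_sq, _root_.one_mul]

/-- the basis of the middle degree -/
def b1 (k : ℤ) : FW k (2 * k) := ⟨![0, 1, 0, 0], by rw [mem_FW]; simp⟩
/-- the basis of the middle degree -/
def b2 (k : ℤ) : FW k (2 * k) := ⟨![0, 0, 1, 0], by rw [mem_FW]; simp⟩
/-- the top class -/
def b3 (k : ℤ) : FW k (4 * k) := ⟨![0, 0, 0, 1], by rw [mem_FW]; simp⟩

theorem mid_eq (hk : 1 ≤ k) (u : FW k (2 * k)) :
    u = (u : Fin 4 → ℚ) 1 • b1 k + (u : Fin 4 → ℚ) 2 • b2 k := by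
  have hu := u.2
  rw [mem_FW] at hu
  obtain ⟨h2, h3, h4⟩ := hu
  apply Subtype.ext
  ext t
  fin_cases t
  · simp [b1, b2, h2 (by omega)]
  · simp [b1, b2]
  · simp [b1, b2]
  · simp [b1, b2, h4 (by omega)]

theorem sq_mid (u : FW k (2 * k)) (hk : 1 ≤ k) :
    (⟨mulW u u, mulW_mem (by ring) _ _ u.2 u.2⟩ : FW k (4 * k)) =
      ((u : Fin 4 → ℚ) 1 ^ 2 - 2 * (u : Fin 4 → ℚ) 2 ^ 2) • b3 k := by
  have hu := u.2
  rw [mem_FW] at hu
  obtain ⟨h2, h3, h4⟩ := hu
  apply Subtype.ext
  ext t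
  fin_cases t
  · simp [b3, mulW_apply, h2 (show 2 * k ≠ 0 by omega)]
  · simp [b3, mulW_apply, h2 (show 2 * k ≠ 0 by omega)]
  · simp [b3, mulW_apply, h2 (show 2 * k ≠ 0 by omega)]
  · simp [b3, mulW_apply, h2 (show 2 * k ≠ 0 by omega)]
    ring

theorem mul_mid (hk : 1 ≤ k) (u : FW k (2 * k)) :
    (exA k).mH (2 * k) (2 * k) (4 * k) (by ring) (ecls _ u) (ecls _ u) =
      ((u : Fin 4 → ℚ) 1 ^ 2 - 2 * (u : Fin 4 → ℚ) 2 ^ 2) • ecls (4 * k) (b3 k) := by
  rw [ecls_mul, sq_mid u hk, map_smul]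

theorem ecls_b3 : ecls (4 * k) (b3 k) ≠ 0 := by
  intro h
  have h1 := ecls_inj (k := k) (4 * k) (h.trans (map_zero _).symm)
  have := congrArg (fun u : FW k (4 * k) => (u : Fin 4 → ℚ) 3) h1
  simp [b3] at this

theorem ex_sig (hk : 1 ≤ k) : (exA k).SignatureZero k := by
  intro ω
  let ω' : (exA k).H (4 * k) ≃ₗ[ℚ] ℚ := ω
  have key : ∃ P N : Submodule ℚ ((exA k).H (2 * k)), IsCompl P N ∧
    Module.finrank ℚ P = Module.finrank ℚ N ∧
    (∀ x ∈ P, x ≠ 0 → 0 < ω' ((exA k).mH (2 * k) (2 * k) (4 * k) (by ring) x x)) ∧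
    (∀ x ∈ N, x ≠ 0 → ω' ((exA k).mH (2 * k) (2 * k) (4 * k) (by ring) x x) < 0) := by
    have hb1 : ecls (2 * k) (b1 k) ≠ 0 := by
      intro h
      have h1 := ecls_inj (k := k) (2 * k) (h.trans (map_zero _).symm)
      have := congrArg (fun u : FW k (2 * k) => (u : Fin 4 → ℚ) 1) h1
      simp [b1] at this
    have hb2 : ecls (2 * k) (b2 k) ≠ 0 := by
      intro h
      have h1 := ecls_inj (k := k) (2 * k) (h.trans (map_zero _).symm)
      have := congrArg (fun u : FW k (2 * k) => (u : Fin 4 → ℚ) 2) h1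
      simp [b2] at this
    have hc : ω' (ecls (4 * k) (b3 k)) ≠ 0 := by
      intro h
      exact ecls_b3 (ω'.map_eq_zero_iff.mp h)
    have hcompl : IsCompl (Submodule.span ℚ {ecls (2 * k) (b1 k)})
        (Submodule.span ℚ {ecls (2 * k) (b2 k)}) := by
      constructor
      · rw [Submodule.disjoint_def]
        intro x hx hx'
        obtain ⟨a, rfl⟩ := Submodule.mem_span_singleton.mp hx
        obtain ⟨b, hb⟩ := Submodule.mem_span_singleton.mp hx'
        rw [← map_smul, ← map_smul] at hb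
        have h1 := ecls_inj (k := k) (2 * k) hb
        have := congrArg (fun u : FW k (2 * k) => (u : Fin 4 → ℚ) 1) h1
        simp [b1, b2] at this
        rw [← this, zero_smul]
      · rw [codisjoint_iff, eq_top_iff]
        intro x _
        obtain ⟨u, rfl⟩ := ecls_surj (2 * k) x
        rw [mid_eq hk u, map_add, map_smul, map_smul]
        exact Submodule.add_mem_sup (Submodule.smul_mem _ _ (Submodule.mem_span_singleton_self _))
          (Submodule.smul_mem _ _ (Submodule.mem_span_singleton_self _))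
    have q1 : ∀ a : ℚ, ω' ((exA k).mH (2 * k) (2 * k) (4 * k) (by ring)
        (a • ecls _ (b1 k)) (a • ecls _ (b1 k))) = a ^ 2 * ω' (ecls (4 * k) (b3 k)) := by
      intro a
      rw [← map_smul, mul_mid hk, map_smul]
      simp [b1]
    have q2 : ∀ a : ℚ, ω' ((exA k).mH (2 * k) (2 * k) (4 * k) (by ring)
        (a • ecls _ (b2 k)) (a • ecls _ (b2 k))) = - (2 * a ^ 2) * ω' (ecls (4 * k) (b3 k)) := by
      intro a
      rw [← map_smul, mul_mid hk, map_smul]
      simp [b2]
    rcases lt_or_gt_of_ne hc with hlt | hgt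
    · refine ⟨_, _, hcompl.symm, ?_, ?_, ?_⟩
      · rw [finrank_span_singleton hb1, finrank_span_singleton hb2]
      · intro x hx hx0
        obtain ⟨a, rfl⟩ := Submodule.mem_span_singleton.mp hx
        have ha : a ≠ 0 := by rintro rfl; simp at hx0
        rw [q2]
        have : 0 < a ^ 2 := by positivity
        nlinarith
      · intro x hx hx0
        obtain ⟨a, rfl⟩ := Submodule.mem_span_singleton.mp hx
        have ha : a ≠ 0 := by rintro rfl; simp at hx0
        rw [q1]
        have : 0 < a ^ 2 := by positivity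
        nlinarith
    · refine ⟨_, _, hcompl, ?_, ?_, ?_⟩
      · rw [finrank_span_singleton hb1, finrank_span_singleton hb2]
      · intro x hx hx0
        obtain ⟨a, rfl⟩ := Submodule.mem_span_singleton.mp hx
        have ha : a ≠ 0 := by rintro rfl; simp at hx0
        rw [q1]
        have : 0 < a ^ 2 := by positivity
        nlinarith
      · intro x hx hx0
        obtain ⟨a, rfl⟩ := Submodule.mem_span_singleton.mp hx
        have ha : a ≠ 0 := by rintro rfl; simp at hx0
        rw [q2]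
        have : 0 < a ^ 2 := by positivity
        nlinarith
  exact key

theorem no_sqrt_two (a b : ℚ) (h : a ^ 2 - 2 * b ^ 2 = 0) : a = 0 ∧ b = 0 := by
  by_cases hb : b = 0
  · subst hb
    have : a ^ 2 = 0 := by linarith
    exact ⟨by simpa using this, rfl⟩
  · exfalso
    have h1 : (a / b) ^ 2 = 2 := by
      field_simp
      linarith
    have h2 : Irrational (Real.sqrt 2) := irrational_sqrt_two
    apply h2
    refine ⟨|a / b|, ?_⟩
    rw [eq_comm, Real.sqrt_eq_iff_mul_self_eq (by norm_num) (by positivity)]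
    rw [← sq]
    push_cast
    rw [sq_abs]
    exact_mod_cast h1.symm

theorem ex_not_metabolic (hk : 1 ≤ k) : ¬ (exA k).Metabolic k := by
  rintro ⟨L, hL⟩
  have hL' : ∀ x : (exA k).H (2 * k), x ∈ L ↔ ∀ y ∈ L,
    (exA k).mH (2 * k) (2 * k) (4 * k) (by ring) x y = 0 := hL
  have h0 : ∀ x : (exA k).H (2 * k), x ∈ L → x = 0 := by
    intro x hx
    have h1 := (hL' x).mp hx x hx
    obtain ⟨u, rfl⟩ := ecls_surj (2 * k) x
    rw [mul_mid hk] at h1
    rcases smul_eq_zero.mp h1 with h2 | h2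
    · obtain ⟨h3, h4⟩ := no_sqrt_two _ _ h2
      rw [mid_eq hk u, h3, h4]
      simp
    · exact absurd h2 ecls_b3
  have h1 : ecls (2 * k) (b1 k) ∈ L := by
    rw [hL']
    intro y hy
    rw [h0 y hy, mH_zero]
  have h2 := h0 _ h1
  have h3 := ecls_inj (k := k) (2 * k) (h2.trans (map_zero _).symm)
  have := congrArg (fun u : FW k (2 * k) => (u : Fin 4 → ℚ) 1) h3
  simp [b1] at this

end CDGA

end Pool.Agent.Q171.CE
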