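import Mathlib
import Pool.Agent.Q171.CE.Inv

/-!
# The middle cohomology of a cone satisfying Poincaré duality contains a Lagrangian
-/

set_option autoImplicit false

namespace Pool.Agent.Q171.CE

namespace CDGA

/-- extension of functionals along a linear map -/
theorem exists_factor {U V : Type} [AddCommGroup U] [Module ℚ U] [AddCommGroup V] [Module ℚ V]
    (g : U →ₗ[ℚ] V) (f : U →ₗ[ℚ] ℚ) (h : LinearMap.ker g ≤ LinearMap.ker f) :
    ∃ f' : V →ₗ[ℚ] ℚ, f' ∘ₗ g = f := by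
  have h1 : f ∈ LinearMap.range g.dualMap := by
    rw [LinearMap.range_dualMap_eq_dualAnnihilator_ker, Submodule.mem_dualAnnihilator]
    intro w hw
    exact h hw
  obtain ⟨f', hf'⟩ := h1
  exact ⟨f', hf'⟩

variable {Q : CDGA} {n : ℤ} (Ψ : Balanced Q n)

theorem d_one' (Q : CDGA) (j : ℤ) (h : 0 + 1 = j) : Q.d 0 j h Q.one = 0 := by
  subst h
  exact Q.d_one

/-- If `1` is not a coboundary, the augmentation is nonzero on top cocycles. -/
theorem exists_eps (hQ : Q.NonNeg) (m : ℤ) (hm : m + 1 = n)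
    (h1 : ¬ ∃ b, (cone Q n Ψ).d (-1) 0 (by norm_num) b = (cone Q n Ψ).one) :
    ∃ (q : Q.V m) (φ : Module.Dual ℚ (Q.V 0)),
      (cone Q n Ψ).d m (m + 1) rfl (mkC Ψ m 0 (by omega) q φ) = 0 ∧ φ Q.one ≠ 0 := by
  by_contra hcon
  push Not at hcon
  let g : Module.Dual ℚ (Q.V 0) →ₗ[ℚ] (Q.V n ⧸ LinearMap.range (Q.d m n hm)) :=
    (Submodule.mkQ _) ∘ₗ psiR Ψ n 0 (by omega)
  let ev : Module.Dual ℚ (Q.V 0) →ₗ[ℚ] ℚ := LinearMap.applyₗ Q.one
  have hker : LinearMap.ker g ≤ LinearMap.ker ev := by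
    intro φ hφ
    rw [LinearMap.mem_ker] at hφ ⊢
    have h2 : psiR Ψ n 0 (by omega) φ ∈ LinearMap.range (Q.d m n hm) :=
      (Submodule.Quotient.mk_eq_zero _).mp hφ
    obtain ⟨q, hq⟩ := h2
    refine hcon (-q) φ ?_
    subst hm
    rw [mkC_d Ψ m (m + 1) 0 (-1) (by omega) (by omega) rfl (by norm_num) (by omega), map_neg, hq,
      neg_add_cancel]
    have h3 : Subsingleton (Q.V (-1)) := hQ (-1) (by norm_num)
    have h4 : sgn (m + 1) • φ ∘ₗ Q.d (-1) 0 (by norm_num) = 0 := by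
      ext x
      rw [Subsingleton.elim x 0]
      simp
    rw [h4, mkC_zero]
  obtain ⟨μ, hμ⟩ := exists_factor g ev hker
  let lam : Module.Dual ℚ (Q.V n) := μ ∘ₗ Submodule.mkQ _
  have hlam1 : ∀ φ, lam (psiR Ψ n 0 (by omega) φ) = φ Q.one := fun φ =>
    congrArg (fun F => F φ) hμ
  have hlam2 : lam ∘ₗ Q.d m n hm = 0 := by
    ext x
    change μ (Submodule.Quotient.mk (Q.d m n hm x)) = 0
    have hx : Q.d m n hm x ∈ LinearMap.range (Q.d m n hm) := LinearMap.mem_range_self _ x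
    rw [(Submodule.Quotient.mk_eq_zero _).mpr hx, map_zero]
  have hlam3 : psiR Ψ 0 n (by omega) lam = Q.one := by
    rw [← sub_eq_zero, ← Module.forall_dual_apply_eq_zero_iff ℚ]
    intro φ
    have h5 := psiR_bal Ψ n 0 0 0 n 0 (by omega) (by omega) (by omega) (by omega) φ lam Q.one
      (by ring)
    rw [Q.mul_one n (by omega), Q.mul_one 0 (by omega), hlam1, sgn_zero, _root_.one_mul] at h5
    rw [map_sub, ← h5, sub_self]
  apply h1
  refine ⟨mkC Ψ (-1) n (by omega) 0 lam, ?_⟩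
  rw [mkC_d Ψ (-1) 0 n m (by omega) (by omega) (by norm_num) hm (by omega), hlam3, hlam2,
    smul_zero, map_zero]
  have h6 : (0 : Q.V 0) + Q.one = Q.one := zero_add _
  rw [h6, mkC_one]

/-- A cocycle whose dual part kills all cocycles of `Q` comes from `Q`. -/
theorem from_Q (p j : ℤ) (hj : p + 1 + j = n) (q : Q.V p) (φ : Module.Dual ℚ (Q.V j))
    (hz : (cone Q n Ψ).d p (p + 1) rfl (mkC Ψ p j hj q φ) = 0)
    (hφ : ∀ c : Q.V j, Q.d j (j + 1) rfl c = 0 → φ c = 0) :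
    ∃ (q' : Q.V p) (_ : Q.d p (p + 1) rfl q' = 0) (b : (cone Q n Ψ).V (p - 1)),
      (cone Q n Ψ).d (p - 1) p (by ring) b = mkC Ψ p j hj q φ - mkC Ψ p j hj q' 0 := by
  obtain ⟨ν, hν⟩ := exists_factor (Q.d j (j + 1) rfl) φ (fun c hc => hφ c hc)
  have hb := mkC_d Ψ (p - 1) p (j + 1) j (by omega) hj (by ring) rfl (by omega) 0 (sgn p • ν)
  rw [map_zero, zero_add, map_smul, LinearMap.smul_comp, hν, smul_smul, sgn_sq, one_smul] at hb
  refine ⟨q - sgn p • psiR Ψ p (j + 1) (by omega) ν, ?_, mkC Ψ (p - 1) (j + 1) (by omega) 0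
    (sgn p • ν), ?_⟩
  · have h1 : mkC Ψ p j hj (q - sgn p • psiR Ψ p (j + 1) (by omega) ν) 0 =
        mkC Ψ p j hj q φ - mkC Ψ p j hj (sgn p • psiR Ψ p (j + 1) (by omega) ν) φ := by
      rw [mkC_sub, sub_self]
    have h2 : (cone Q n Ψ).d p (p + 1) rfl
        (mkC Ψ p j hj (q - sgn p • psiR Ψ p (j + 1) (by omega) ν) 0) = 0 := by
      rw [h1, map_sub, hz, ← hb, (cone Q n Ψ).dd, sub_zero]
    rw [mkC_d Ψ p (p + 1) j (j - 1) hj (by omega) rfl (by ring) (by omega), map_zero, add_zero,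
      ← mkC_zero Ψ (p + 1) (j - 1) (by omega)] at h2
    exact (mkC_inj Ψ _ _ _ _ _ _ _ h2).1
  · rw [hb, mkC_sub, sub_zero, sub_sub_cancel]

end CDGA

end Pool.Agent.Q171.CE
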