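import Mathlib
import Pool.Agent.Q171.CE.Lagr

/-!
# The middle form of a cone satisfying Poincaré duality is metabolic
-/

set_option autoImplicit false

namespace Pool.Agent.Q171.CE

namespace CDGA

theorem finrank_coh_m {A : CDGA} {m : ℤ} (h : A.PoincareDuality m) :
    Module.finrank ℚ (A.H m) = 1 := by
  obtain ⟨h0, h1, -, θ, -⟩ := h
  have e : ∀ t : ℤ, t = 0 → Module.finrank ℚ (A.H t) = 1 := by
    rintro _ rfl
    exact h0
  rw [(θ m).finrank_eq]
  have := h1 (m - m)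
  change Module.finrank ℚ (Module.Dual ℚ (A.H (m - m))) = 1
  rw [Subspace.dual_finrank_eq]
  exact e (m - m) (sub_self m)

theorem one_not_boundary {E : CDGA} (h : Module.finrank ℚ (E.H 0) = 1) :
    ¬ ∃ b, E.d (-1) 0 (by norm_num) b = E.one := by
  intro hb
  have h1 : E.cl 0 E.one E.d_one = 0 :=
    (E.cls_eq_zero (-1) 0 (by norm_num) E.one E.d_one).mpr hb
  have h3 : ∀ a : E.H 0, a = 0 := by
    intro a
    rw [← E.one_mH 0 (by norm_num) a, h1, E.zero_mH]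
  have h2 : Subsingleton (E.H 0) := ⟨fun a b => (h3 a).trans (h3 b).symm⟩
  rw [Module.finrank_zero_of_subsingleton] at h
  exact zero_ne_one h

section cone

variable {Q : CDGA} {k n : ℤ} (Ψ : Balanced Q n) (hm : 4 * k + 1 = n)

theorem d_top (q1 : Q.V (4 * k - 1)) (φ1 : Module.Dual ℚ (Q.V 1)) :
    (cone Q n Ψ).d (4 * k - 1) (4 * k) (by ring) (mkC Ψ (4 * k - 1) 1 (by omega) q1 φ1) =
      mkC Ψ (4 * k) 0 (by omega)
        (Q.d (4 * k - 1) (4 * k) (by ring) q1 + psiR Ψ (4 * k) 1 (by omega) φ1)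
        (sgn (4 * k) • φ1 ∘ₗ Q.d 0 1 (by norm_num)) :=
  mkC_d Ψ (4 * k - 1) (4 * k) 1 0 (by omega) (by omega) (by ring) (by norm_num) (by omega) q1 φ1

/-- a top coboundary has zero augmentation -/
theorem eps_of_boundary (q : Q.V (4 * k)) (φ : Module.Dual ℚ (Q.V 0))
    (b : (cone Q n Ψ).V (4 * k - 1))
    (hb : (cone Q n Ψ).d (4 * k - 1) (4 * k) (by ring) b = mkC Ψ (4 * k) 0 (by omega) q φ) :
    φ Q.one = 0 := by
  obtain ⟨q1, φ1, rfl⟩ := mkC_surj Ψ (4 * k - 1) 1 (by omega) b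
  rw [d_top Ψ hm] at hb
  have h1 := (mkC_inj Ψ _ _ _ _ _ _ _ hb).2
  rw [← h1]
  simp [d_one']

theorem closed (q : Q.V (2 * k)) (hq : Q.d (2 * k) (2 * k + 1) rfl q = 0) :
    (cone Q n Ψ).d (2 * k) (2 * k + 1) rfl (mkC Ψ (2 * k) (2 * k) (by omega) q 0) = 0 := by
  rw [mkC_d Ψ (2 * k) (2 * k + 1) (2 * k) (2 * k - 1) (by omega) (by omega) rfl (by ring)
      (by omega), hq, map_zero, add_zero, LinearMap.zero_comp, smul_zero, mkC_zero]

/-- the image of the cohomology of `Q` in the middle degree -/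
def Lag : Submodule ℚ ((cone Q n Ψ).H (2 * k)) where
  carrier := {z | ∃ (q : Q.V (2 * k)) (hq : Q.d (2 * k) (2 * k + 1) rfl q = 0),
        z = (cone Q n Ψ).cl (2 * k) (mkC Ψ (2 * k) (2 * k) (by omega) q 0)
          (closed Ψ hm q hq)}
  zero_mem' := by
    refine ⟨0, map_zero _, ?_⟩
    symm
    rw [(cone Q n Ψ).cls_eq_zero (2 * k - 1) (2 * k) (by ring)]
    exact ⟨0, by rw [map_zero, mkC_zero]⟩
  add_mem' := by
    rintro _ _ ⟨q, hq, rfl⟩ ⟨q', hq', rfl⟩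
    have h : Q.d (2 * k) (2 * k + 1) rfl (q + q') = 0 := by rw [map_add, hq, hq', add_zero]
    refine ⟨q + q', h, ?_⟩
    have h1 : mkC Ψ (2 * k) (2 * k) (by omega) (q + q') 0 =
      mkC Ψ (2 * k) (2 * k) (by omega) q 0 + mkC Ψ (2 * k) (2 * k) (by omega) q' 0 := by
      rw [mkC_add, add_zero]
    have h2 : (cone Q n Ψ).cl (2 * k) (mkC Ψ (2 * k) (2 * k) (by omega) (q + q') 0)
        (closed Ψ hm _ h) =
      (cone Q n Ψ).cl (2 * k) (mkC Ψ (2 * k) (2 * k) (by omega) q 0 +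
        mkC Ψ (2 * k) (2 * k) (by omega) q' 0) (by rw [← h1]; exact closed Ψ hm _ h) := by
      congr 1
    rw [h2]
    rfl
  smul_mem' := by
    rintro c _ ⟨q, hq, rfl⟩
    have h : Q.d (2 * k) (2 * k + 1) rfl (c • q) = 0 := by rw [map_smul, hq, smul_zero]
    refine ⟨c • q, h, ?_⟩
    have h1 : mkC Ψ (2 * k) (2 * k) (by omega) (c • q) 0 =
      c • mkC Ψ (2 * k) (2 * k) (by omega) q 0 := by
      rw [mkC_smul, smul_zero]
    have h2 : (cone Q n Ψ).cl (2 * k) (mkC Ψ (2 * k) (2 * k) (by omega) (c • q) 0)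
        (closed Ψ hm _ h) =
      (cone Q n Ψ).cl (2 * k) (c • mkC Ψ (2 * k) (2 * k) (by omega) q 0)
        (by rw [← h1]; exact closed Ψ hm _ h) := by
      congr 1
    rw [h2]
    rfl

theorem lag_iff (hQ : Q.NonNeg) (f0 : Module.finrank ℚ ((cone Q n Ψ).H 0) = 1)
    (fm : Module.finrank ℚ ((cone Q n Ψ).H (4 * k)) = 1) (z : (cone Q n Ψ).H (2 * k)) :
    z ∈ Lag Ψ hm ↔ ∀ w ∈ Lag Ψ hm,
      (cone Q n Ψ).mH (2 * k) (2 * k) (4 * k) (by ring) z w = 0 := by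
  obtain ⟨q0, φ0, hz0, hφ0⟩ := exists_eps Ψ hQ (4 * k) hm (one_not_boundary f0)
  -- vanishing of the augmentation implies vanishing of the class
  have key : ∀ (q : Q.V (4 * k)) (φ : Module.Dual ℚ (Q.V 0))
      (hz : (cone Q n Ψ).d (4 * k) (4 * k + 1) rfl (mkC Ψ (4 * k) 0 (by omega) q φ) = 0),
      φ Q.one = 0 →
      (cone Q n Ψ).cl (4 * k) (mkC Ψ (4 * k) 0 (by omega) q φ) hz = 0 := by
    intro q φ hz hφ
    have hne : (cone Q n Ψ).cl (4 * k) (mkC Ψ (4 * k) 0 (by omega) q0 φ0) hz0 ≠ 0 := by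
      intro h0
      rw [(cone Q n Ψ).cls_eq_zero (4 * k - 1) (4 * k) (by ring)] at h0
      obtain ⟨b, hb⟩ := h0
      exact hφ0 (eps_of_boundary Ψ hm q0 φ0 b hb)
    obtain ⟨c, hc⟩ := exists_smul_eq_of_finrank_eq_one fm hne
      ((cone Q n Ψ).cl (4 * k) (mkC Ψ (4 * k) 0 (by omega) q φ) hz)
    have hcz : (cone Q n Ψ).d (4 * k) (4 * k + 1) rfl
        (c • mkC Ψ (4 * k) 0 (by omega) q0 φ0) = 0 := by
      rw [map_smul, hz0, smul_zero]
    have hc' : (cone Q n Ψ).cl (4 * k) (c • mkC Ψ (4 * k) 0 (by omega) q0 φ0) hcz =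
      (cone Q n Ψ).cl (4 * k) (mkC Ψ (4 * k) 0 (by omega) q φ) hz := hc
    rw [(cone Q n Ψ).cls_eq (4 * k - 1) (4 * k) (by ring)] at hc'
    obtain ⟨b, hb⟩ := hc'
    rw [mkC_smul, mkC_sub] at hb
    have h2 := eps_of_boundary Ψ hm _ _ b hb
    simp only [LinearMap.smul_apply, LinearMap.sub_apply, hφ, sub_zero, smul_eq_mul] at h2
    have hc0 : c = 0 := by
      rcases mul_eq_zero.mp h2 with h3 | h3
      · exact h3
      · exact absurd h3 hφ0
    rw [← hc, hc0, zero_smul]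
  constructor
  · rintro ⟨q, hq, rfl⟩ _ ⟨q', hq', rfl⟩
    have h1 := (cone Q n Ψ).mul_mem_Z (2 * k) (2 * k) (4 * k) (by ring) _ _
      (closed Ψ hm q hq) (closed Ψ hm q' hq')
    rw [(cone Q n Ψ).mH_cl _ _ _ _ _ _ (closed Ψ hm q hq) (closed Ψ hm q' hq') h1]
    have h2 := mkC_mul Ψ (2 * k) (2 * k) (4 * k) (2 * k) (2 * k) 0 (by omega) (by omega)
      (by omega) (by ring) (by ring) (by ring) q 0 q' 0
    have h3 : (cone Q n Ψ).d (4 * k) (4 * k + 1) rfl (mkC Ψ (4 * k) 0 (by omega)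
        (Q.mul (2 * k) (2 * k) (4 * k) (by ring) q q')
        ((0 : Module.Dual ℚ (Q.V (2 * k))) ∘ₗ Q.mul (2 * k) 0 (2 * k) (by ring) q' +
          sgn ((2 * k) * (2 * k)) • (0 : Module.Dual ℚ (Q.V (2 * k))) ∘ₗ
            Q.mul (2 * k) 0 (2 * k) (by ring) q)) = 0 := by
      rw [← h2]
      exact h1
    have h4 := key _ _ h3 (by simp)
    rw [← h4]
    congr 1
  · intro hz
    obtain ⟨a, ha, rfl⟩ := (cone Q n Ψ).cls_surj (2 * k) z
    obtain ⟨q, φ, rfl⟩ := mkC_surj Ψ (2 * k) (2 * k) (by omega) a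
    have hφ : ∀ c : Q.V (2 * k), Q.d (2 * k) (2 * k + 1) rfl c = 0 → φ c = 0 := by
      intro c hc
      have h1 := hz _ ⟨c, hc, rfl⟩
      have h2 : (cone Q n Ψ).d (4 * k) (4 * k + 1) rfl
          ((cone Q n Ψ).mul (2 * k) (2 * k) (4 * k) (by ring)
            (mkC Ψ (2 * k) (2 * k) (by omega) q φ) (mkC Ψ (2 * k) (2 * k) (by omega) c 0)) = 0 :=
        (cone Q n Ψ).mul_mem_Z (2 * k) (2 * k) (4 * k) (by ring) _ _ ha (closed Ψ hm c hc)
      rw [(cone Q n Ψ).mH_cl _ _ _ _ _ _ ha (closed Ψ hm c hc) h2,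
        (cone Q n Ψ).cls_eq_zero (4 * k - 1) (4 * k) (by ring)] at h1
      obtain ⟨b, hb⟩ := h1
      rw [mkC_mul Ψ (2 * k) (2 * k) (4 * k) (2 * k) (2 * k) 0 (by omega) (by omega)
        (by omega) (by ring) (by ring) (by ring) q φ c 0] at hb
      have h4 := eps_of_boundary Ψ hm _ _ b hb
      simp only [LinearMap.smul_apply, LinearMap.comp_apply, LinearMap.add_apply,
        smul_zero, LinearMap.zero_apply, add_zero] at h4
      rw [Q.mul_one] at h4
      exact h4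
    obtain ⟨q', hq', b, hb⟩ := from_Q Ψ (2 * k) (2 * k) (by omega) q φ ha hφ
    refine ⟨q', hq', ?_⟩
    rw [(cone Q n Ψ).cls_eq (2 * k - 1) (2 * k) (by ring)]
    exact ⟨b, hb⟩

end cone

/-- **Obstruction.** If a CDGA with Poincaré duality cohomology in dimension `4k` is
quasi-isomorphic to a semi-trivial mapping cone, then its middle form is metabolic. -/
theorem metabolic {A Q : CDGA} {k : ℤ} (hQ : Q.NonNeg)
    (hA : A.PoincareDuality (4 * k)) (Ψ : Balanced Q (4 * k + 1))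
    (hAE : QuasiIsomorphic A (cone Q (4 * k + 1) Ψ)) : A.Metabolic k := by
  obtain ⟨e⟩ := nonempty_cohIso hAE
  have f0 : Module.finrank ℚ ((cone Q (4 * k + 1) Ψ).H 0) = 1 := by
    rw [← (e.e 0).finrank_eq]
    exact hA.1
  have fm : Module.finrank ℚ ((cone Q (4 * k + 1) Ψ).H (4 * k)) = 1 := by
    rw [← (e.e (4 * k)).finrank_eq]
    exact finrank_coh_m hA
  have hL := lag_iff Ψ rfl hQ f0 fm
  have main : ∃ L : Submodule ℚ (A.H (2 * k)), ∀ x, x ∈ L ↔ ∀ y ∈ L,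
      A.mH (2 * k) (2 * k) (4 * k) (by ring) x y = 0 := by
    refine ⟨(Lag Ψ rfl).comap (e.e (2 * k)).toLinearMap, ?_⟩
    intro x
    rw [Submodule.mem_comap, LinearEquiv.coe_coe, hL]
    constructor
    · intro h y hy
      rw [Submodule.mem_comap, LinearEquiv.coe_coe] at hy
      have h1 := h _ hy
      apply (e.e (4 * k)).injective
      rw [map_zero, e.mul]
      exact h1
    · intro h w hw
      obtain ⟨y, rfl⟩ := (e.e (2 * k)).surjective w
      have h1 := h y (by rw [Submodule.mem_comap, LinearEquiv.coe_coe]; exact hw)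
      have h2 := congrArg (e.e (4 * k)) h1
      rw [map_zero, e.mul] at h2
      exact h2
  exact main

end CDGA

end Pool.Agent.Q171.CE
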